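import Mathlib
import Pool.Graph.R_pool_sql_team_seeded_3997aac3.Q174.DN.Real

set_option autoImplicit false

/-!
# Scaling symmetry: equidistribution of a nonzero digit on a cone
-/

namespace Pool.Agent.H555.DN

open Finset
open Pool.Agent.Q71.DN

/-- On a finite set closed under nonzero scalars, a functional without zeros on the set takes all
nonzero values equally often. -/
theorem scal {F : Type} [Field F] [Fintype F] [DecidableEq F] {m : ℕ} (S : Finset (Fin m → F))
    (f : (Fin m → F) →ₗ[F] F)
    (hS : ∀ v ∈ S, ∀ a : F, a ≠ 0 → a • v ∈ S) (hf : ∀ v ∈ S, f v ≠ 0) (A : Finset F)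
    (hA : (0 : F) ∉ A) :
    (Fintype.card F - 1) * (S.filter fun v => f v ∈ A).card = A.card * S.card := by
  classical
  have h1 : ∀ a ∈ (univ : Finset F).erase 0,
      (∑ v ∈ S, if f (a • v) ∈ A then 1 else 0) = (S.filter fun v => f v ∈ A).card := by
    intro a ha
    have ha0 : a ≠ 0 := Finset.ne_of_mem_erase ha
    rw [Finset.card_eq_sum_ones, Finset.sum_filter]
    refine Finset.sum_bij (fun v _ => a • v) (fun v hv => hS v hv a ha0) ?_ ?_ ?_
    · intro v _ w _ h
      have := congrArg (fun z => a⁻¹ • z) h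
      simpa [smul_smul, inv_mul_cancel₀ ha0] using this
    · intro w hw
      exact ⟨a⁻¹ • w, hS w hw _ (inv_ne_zero ha0), by
        rw [smul_smul, mul_inv_cancel₀ ha0, one_smul]⟩
    · intro v _
      rfl
  have h2 : ∀ v ∈ S, (∑ a ∈ (univ : Finset F).erase 0, if f (a • v) ∈ A then 1 else 0) =
      A.card := by
    intro v hv
    have hv0 := hf v hv
    rw [Finset.card_eq_sum_ones]
    rw [← Finset.sum_filter]
    refine Finset.sum_bij (fun a _ => a * f v) ?_ ?_ ?_ ?_
    · intro a ha
      rw [Finset.mem_filter] at ha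
      have h3 := ha.2
      rw [map_smul, smul_eq_mul] at h3
      exact h3
    · intro a _ b _ h
      exact mul_right_cancel₀ hv0 h
    · intro b hb
      have hb0 : b ≠ 0 := fun h => hA (h ▸ hb)
      refine ⟨b * (f v)⁻¹, ?_, by rw [mul_assoc, inv_mul_cancel₀ hv0, mul_one]⟩
      rw [Finset.mem_filter, Finset.mem_erase]
      refine ⟨⟨mul_ne_zero hb0 (inv_ne_zero hv0), Finset.mem_univ _⟩, ?_⟩
      rw [map_smul, smul_eq_mul, mul_assoc, inv_mul_cancel₀ hv0, mul_one]
      exact hb
    · intro a _
      rfl
  have h3 : ((univ : Finset F).erase 0).card = Fintype.card F - 1 := by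
    rw [Finset.card_erase_of_mem (Finset.mem_univ _), Finset.card_univ]
  calc (Fintype.card F - 1) * (S.filter fun v => f v ∈ A).card
      = ∑ a ∈ (univ : Finset F).erase 0, (S.filter fun v => f v ∈ A).card := by
        rw [Finset.sum_const, h3, smul_eq_mul]
    _ = ∑ a ∈ (univ : Finset F).erase 0, ∑ v ∈ S, (if f (a • v) ∈ A then 1 else 0) :=
        (Finset.sum_congr rfl h1).symm
    _ = ∑ v ∈ S, ∑ a ∈ (univ : Finset F).erase 0, (if f (a • v) ∈ A then 1 else 0) :=
        Finset.sum_comm
    _ = ∑ v ∈ S, A.card := Finset.sum_congr rfl h2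
    _ = A.card * S.card := by rw [Finset.sum_const, smul_eq_mul, mul_comm]

/-- The number of field elements whose digit is below the digit of `a`. -/
theorem card_below {F : Type} [Field F] [Fintype F] (ψ : F ≃ Fin (Fintype.card F)) (a : F) :
    (univ.filter fun b : F => ψ (a + b) < ψ a).card = (ψ a : ℕ) := by
  classical
  have h : (univ.filter fun b : F => ψ (a + b) < ψ a).card =
      (univ.filter fun y : Fin (Fintype.card F) => y < ψ a).card := by
    refine Finset.card_bij (fun b _ => ψ (a + b)) ?_ ?_ ?_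
    · intro b hb
      rw [Finset.mem_filter] at hb ⊢
      exact ⟨Finset.mem_univ _, hb.2⟩
    · intro b _ c _ h
      exact add_left_cancel (ψ.injective h)
    · intro y hy
      rw [Finset.mem_filter] at hy
      refine ⟨ψ.symm y - a, ?_, by simp⟩
      rw [Finset.mem_filter]
      refine ⟨Finset.mem_univ _, ?_⟩
      simpa using hy.2
  rw [h]
  have : (univ.filter fun y : Fin (Fintype.card F) => y < ψ a) = Finset.Iio (ψ a) := by
    ext y; simp
  rw [this, Fin.card_Iio]

end Pool.Agent.H555.DN
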