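import Mathlib
import Pool.Agent.H555.DN.Scal
import Pool.Graph.R_pool_sql_team_seeded_3997aac3.Q71.DN.All

set_option autoImplicit false

/-!
# The discrepancy of a patterned box is linear in the digits of coordinate `0`
-/

namespace Pool.Agent.H555.DN

open Finset
open Pool.Agent.Q71.DN Pool.Agent.Q174.DN

section

variable {F : Type} [Field F] [Fintype F] {m D : ℕ}

open Classical in
/-- The points whose first nonzero digit in coordinate `0` is at `i`, and in an even tile of the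
window of the other coordinates. -/
noncomputable def KS (φ : Rows F m D) (k w : ℕ) (l' : Fin (D + 1) → ℕ) (i : ℕ) :
    Finset (Fin m → F) :=
  univ.filter fun κ => ((∀ i' < i, φ 0 i' κ = 0) ∧ φ 0 i κ ≠ 0) ∧
    ∀ j : Fin (D + 1), FstIn φ j.succ (On k (l' j) w) κ

/-- The volume factor of the coordinates `≥ 1`. -/
noncomputable def vol' (F : Type) [Fintype F] {D : ℕ} (k P : ℕ) (l' : Fin (D + 1) → ℕ) : ℝ :=
  ∏ j : Fin (D + 1), ∑ n ∈ range (P + 1), (-1 : ℝ) ^ n / (Fintype.card F : ℝ) ^ (l' j + k * n)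

/-- Count minus volume for the position `i`. -/
noncomputable def del (φ : Rows F m D) (k P : ℕ) (l' : Fin (D + 1) → ℕ) (i : ℕ) : ℝ :=
  ((KS φ k (k * (P + 1)) l' i).card : ℝ) - (Fintype.card F : ℝ) ^ m *
    (1 / (Fintype.card F : ℝ) ^ i - 1 / (Fintype.card F : ℝ) ^ (i + 1)) * vol' F k P l'

/-- The normalised digit. -/
noncomputable def th (φ : Rows F m D) (ψ : Digs F D) (i : ℕ) (p : Fin m → F) : ℝ :=
  ((ψ 0 i (φ 0 i p) : ℕ) : ℝ) / ((Fintype.card F : ℝ) - 1)

theorem fst_unique (φ : Rows F m D) (j : Fin (D + 2)) (κ : Fin m → F) {i i2 : ℕ}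
    (h1 : ∀ i' < i, φ j i' κ = 0) (h2 : φ j i κ ≠ 0) (h3 : ∀ i' < i2, φ j i' κ = 0)
    (h4 : φ j i2 κ ≠ 0) : i = i2 := by
  rcases lt_trichotomy i i2 with h | h | h
  · exact absurd (h3 i h) h2
  · exact h
  · exact absurd (h1 i2 h) h4

theorem KS_smul (φ : Rows F m D) (k w : ℕ) (l' : Fin (D + 1) → ℕ) (i : ℕ) (v : Fin m → F)
    (hv : v ∈ KS φ k w l' i) (a : F) (ha : a ≠ 0) : a • v ∈ KS φ k w l' i := by
  classical
  unfold KS at hv ⊢
  rw [Finset.mem_filter] at hv ⊢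
  obtain ⟨-, ⟨h1, h2⟩, h3⟩ := hv
  refine ⟨Finset.mem_univ _, ⟨fun i' hi' => ?_, ?_⟩, fun j => ?_⟩
  · rw [map_smul, h1 i' hi', smul_zero]
  · rw [map_smul, smul_eq_mul]
    exact mul_ne_zero ha h2
  · obtain ⟨i₀, h4, h5, h6⟩ := h3 j
    refine ⟨i₀, h4, ?_, fun i' hi' => ?_⟩
    · rw [map_smul, smul_eq_mul]
      exact mul_ne_zero ha h5
    · rw [map_smul, h6 i' hi', smul_zero]

open Classical in
/-- The number of points of the cone below the digit of `p`. -/
theorem KS_below (φ : Rows F m D) (ψ : Digs F D) (k w : ℕ) (l' : Fin (D + 1) → ℕ) (i : ℕ)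
    (p : Fin m → F) :
    (((KS φ k w l' i).filter fun κ => ψ 0 i (φ 0 i p + φ 0 i κ) < ψ 0 i (φ 0 i p)).card : ℝ) =
      th φ ψ i p * ((KS φ k w l' i).card : ℝ) := by
  have h := scal (KS φ k w l' i) (φ 0 i) (fun v hv a ha => KS_smul φ k w l' i v hv a ha)
    (fun v hv => by
      unfold KS at hv
      rw [Finset.mem_filter] at hv
      exact hv.2.1.2)
    (univ.filter fun b : F => ψ 0 i (φ 0 i p + b) < ψ 0 i (φ 0 i p)) (by
      rw [Finset.mem_filter, add_zero]
      exact fun h => lt_irrefl _ h.2)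
  rw [card_below] at h
  have hq : 2 ≤ Fintype.card F := Fintype.one_lt_card
  have hq1 : (0 : ℝ) < (Fintype.card F : ℝ) - 1 := by
    have : (2 : ℝ) ≤ (Fintype.card F : ℝ) := by exact_mod_cast hq
    linarith
  have h2 : ((KS φ k w l' i).filter fun v => φ 0 i v ∈
      (univ.filter fun b : F => ψ 0 i (φ 0 i p + b) < ψ 0 i (φ 0 i p))) =
      (KS φ k w l' i).filter fun κ => ψ 0 i (φ 0 i p + φ 0 i κ) < ψ 0 i (φ 0 i p) := by
    refine Finset.filter_congr fun v _ => ?_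
    rw [Finset.mem_filter]
    exact ⟨fun h => h.2, fun h => ⟨Finset.mem_univ _, h⟩⟩
  rw [h2] at h
  have h3 := congrArg (Nat.cast : ℕ → ℝ) h
  rw [Nat.cast_mul, Nat.cast_mul, Nat.cast_sub (by omega), Nat.cast_one] at h3
  unfold th
  rw [div_mul_eq_mul_div, eq_div_iff hq1.ne', mul_comm, h3]

/-- **The formula.** For a point `p` with the even-tile pattern in the windows of the coordinates
`≥ 1`, the signed discrepancy of its box is linear in the normalised digits of coordinate `0`. -/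
theorem disc_formula (φ : Rows F m D) (ψ : Digs F D) (x : (Fin m → F) → Fin (D + 2) → ℝ)
    (hx : IsDig φ ψ x) (R : ℝ) (hR : Bd x R) (k L l1 : ℕ) (l' : Fin (D + 1) → ℕ) (hk : 1 ≤ k)
    (hL : 1 ≤ L) (win0 : l1 + k * (2 * L) ≤ m) (win : ∀ j, l' j + k * (2 * L) ≤ m)
    (p : Fin m → F)
    (hp : ∀ (j : Fin (D + 1)) (i : ℕ), l' j ≤ i → i < l' j + k * (2 * L) →
      (ψ j.succ i (φ j.succ i p) : ℕ) = if Even ((i - l' j) / k) then Fintype.card F - 1 else 0) :
    |∑ i ∈ Ico l1 (l1 + k * (2 * L)), th φ ψ i p * del φ k (2 * L - 1) l' i| ≤ R := by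
  classical
  have hPL : 2 * L - 1 + 1 = 2 * L := by omega
  set w : ℕ := k * (2 * L) with hw
  set l : Fin (D + 2) → ℕ := Fin.cons (α := fun _ => ℕ) l1 l' with hl
  set u : Fin (D + 2) → ℕ := fun j => l j + w with hu
  have hlu : ∀ j, l j ≤ u j ∧ u j ≤ m := by
    intro j
    refine ⟨by simp [hu], ?_⟩
    refine Fin.cases ?_ (fun j => ?_) j
    · simpa [hu, hl] using win0
    · simpa [hu, hl] using win j
  have hqpos : (0 : ℝ) < (Fintype.card F : ℝ) := by exact_mod_cast Fintype.card_pos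
  have hq1 : 1 ≤ Fintype.card F := Fintype.card_pos
  have hq2 : 2 ≤ Fintype.card F := Fintype.one_lt_card
  have hqm1 : (0 : ℝ) < (Fintype.card F : ℝ) - 1 := by
    have : (2 : ℝ) ≤ (Fintype.card F : ℝ) := by exact_mod_cast hq2
    linarith
  obtain ⟨hb, hc⟩ := geo_thm F m D φ ψ x hx p l u hlu
  have hR0 := hR _ _ hb
  rw [hc] at hR0
  -- the count
  have hcount : ((univ.filter fun κ : Fin m → F => ∀ j, ∃ i, l j ≤ i ∧ i < u j ∧
          (∀ i' < i, φ j i' κ = 0) ∧ ψ j i (φ j i p + φ j i κ) < ψ j i (φ j i p)).card : ℝ) =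
      ∑ i ∈ Ico l1 (l1 + w), th φ ψ i p * ((KS φ k w l' i).card : ℝ) := by
    rw [← Finset.sum_congr rfl fun i _ => KS_below φ ψ k w l' i p]
    rw [← Nat.cast_sum, ← Finset.card_biUnion]
    · congr 2
      ext κ
      rw [Finset.mem_biUnion, Finset.mem_filter, Fin.forall_fin_succ]
      have e1 : (∀ j : Fin (D + 1), ∃ i, l j.succ ≤ i ∧ i < u j.succ ∧
          (∀ i' < i, φ j.succ i' κ = 0) ∧
            ψ j.succ i (φ j.succ i p + φ j.succ i κ) < ψ j.succ i (φ j.succ i p)) ↔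
          ∀ j : Fin (D + 1), FstIn φ j.succ (On k (l' j) w) κ := by
        refine forall_congr' fun j => ?_
        simp only [hu, hl, Fin.cons_succ]
        exact bc_iff φ ψ j.succ k (l' j) w p κ (hp j)
      rw [e1]
      simp only [hu, hl, Fin.cons_zero, Finset.mem_univ, true_and]
      constructor
      · rintro ⟨⟨i, h1, h2, h3, h4⟩, h5⟩
        refine ⟨i, Finset.mem_Ico.2 ⟨h1, h2⟩, ?_⟩
        rw [Finset.mem_filter]
        refine ⟨?_, h4⟩
        unfold KS
        rw [Finset.mem_filter]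
        exact ⟨Finset.mem_univ _, ⟨h3, dig_ne _ _ _ h4⟩, h5⟩
      · rintro ⟨i, hi, h⟩
        rw [Finset.mem_Ico] at hi
        rw [Finset.mem_filter] at h
        obtain ⟨h1, h4⟩ := h
        unfold KS at h1
        rw [Finset.mem_filter] at h1
        exact ⟨⟨i, hi.1, hi.2, h1.2.1.1, h4⟩, h1.2.2⟩
    · intro i _ i2 _ hne
      rw [Function.onFun, Finset.disjoint_left]
      intro κ h1 h2
      rw [Finset.mem_filter] at h1 h2
      have h3 := h1.1
      have h4 := h2.1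
      unfold KS at h3 h4
      rw [Finset.mem_filter] at h3 h4
      exact hne (fst_unique φ 0 κ h3.2.1.1 h3.2.1.2 h4.2.1.1 h4.2.1.2)
  -- the volume
  have htr : ∀ (j : Fin (D + 2)), tr φ ψ j (u j) p - tr φ ψ j (l j) p =
      ∑ i ∈ Ico (l j) (l j + w), ((ψ j i (φ j i p) : ℕ) : ℝ) / (Fintype.card F : ℝ) ^ (i + 1) := by
    intro j
    rw [tr, tr, Finset.sum_Ico_eq_sub _ (by omega)]
  have hsucc : ∀ j : Fin (D + 1),
        tr φ ψ j.succ (u j.succ) p - tr φ ψ j.succ (l j.succ) p =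
          ∑ n ∈ range (2 * L - 1 + 1), (-1 : ℝ) ^ n / (Fintype.card F : ℝ) ^ (l' j + k * n) := by
    intro j
    rw [htr j.succ]
    have e1 : l j.succ = l' j := by simp [hl]
    rw [e1, hPL, ← even_sum, ← win_sum _ hqpos k (l' j) hk, hw]
    refine Finset.sum_congr rfl fun i hi => ?_
    rw [Finset.mem_Ico] at hi
    rw [hp j i hi.1 hi.2]
    by_cases he : Even ((i - l' j) / k)
    · rw [if_pos he, if_pos he, Nat.cast_sub hq1, Nat.cast_one]
    · rw [if_neg he, if_neg he, Nat.cast_zero]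
  have hzero : tr φ ψ 0 (u 0) p - tr φ ψ 0 (l 0) p = ∑ i ∈ Ico l1 (l1 + w), th φ ψ i p *
      (1 / (Fintype.card F : ℝ) ^ i - 1 / (Fintype.card F : ℝ) ^ (i + 1)) := by
    rw [htr 0]
    have e1 : l 0 = l1 := by simp [hl]
    rw [e1]
    refine Finset.sum_congr rfl fun i _ => ?_
    unfold th
    have h1 : (Fintype.card F : ℝ) ^ i ≠ 0 := by positivity
    rw [pow_succ]
    field_simp
  have hfin : ((univ.filter fun κ : Fin m → F => ∀ j, ∃ i, l j ≤ i ∧ i < u j ∧
          (∀ i' < i, φ j i' κ = 0) ∧ ψ j i (φ j i p + φ j i κ) < ψ j i (φ j i p)).card : ℝ) -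
      (Fintype.card F : ℝ) ^ m * ∏ j, (tr φ ψ j (u j) p - tr φ ψ j (l j) p) =
      ∑ i ∈ Ico l1 (l1 + w), th φ ψ i p * del φ k (2 * L - 1) l' i := by
    rw [hcount, Fin.prod_univ_succ, hzero, Finset.prod_congr rfl fun j _ => hsucc j]
    have e2 : (∏ j : Fin (D + 1), ∑ n ∈ range (2 * L - 1 + 1),
        (-1 : ℝ) ^ n / (Fintype.card F : ℝ) ^ (l' j + k * n)) = vol' F k (2 * L - 1) l' := rfl
    rw [e2]
    unfold del
    rw [hPL, ← hw, Finset.sum_mul, Finset.mul_sum, ← Finset.sum_sub_distrib]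
    refine Finset.sum_congr rfl fun i _ => ?_
    ring
  rw [← hfin]
  exact hR0

/-- The sum over a tile. -/
theorem tile_del (φ : Rows F m D) (k L l1 n : ℕ) (l' : Fin (D + 1) → ℕ) (hk : 1 ≤ k)
    (hL : 1 ≤ L) :
    ∑ i ∈ Ico (l1 + k * n) (l1 + k * (n + 1)), del φ k (2 * L - 1) l' i =
      Phi φ k (2 * L - 1) l' (l1 + k * n) - Phi φ k (2 * L - 1) l' (l1 + k * (n + 1)) := by
  classical
  have h := exp_thm F m D k L l1 φ l' {n} hk hL
  rw [Finset.sum_singleton] at h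
  rw [← h]
  have h1 : (cT φ k (2 * L - 1) l1 l' {n} : ℝ) =
      ∑ i ∈ Ico (l1 + k * n) (l1 + k * (n + 1)), ((KS φ k (k * (2 * L - 1 + 1)) l' i).card : ℝ) := by
    rw [← Nat.cast_sum, ← Finset.card_biUnion]
    · unfold cT
      congr 2
      ext κ
      rw [Finset.mem_biUnion, Finset.mem_filter]
      simp only [Finset.mem_univ, true_and]
      constructor
      · rintro ⟨⟨i, ⟨n', hn', h1, h2⟩, h3, h4⟩, h5⟩
        rw [Finset.mem_singleton] at hn'
        subst hn'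
        refine ⟨i, Finset.mem_Ico.2 ⟨h1, h2⟩, ?_⟩
        unfold KS
        rw [Finset.mem_filter]
        exact ⟨Finset.mem_univ _, ⟨h4, h3⟩, h5⟩
      · rintro ⟨i, hi, h1⟩
        rw [Finset.mem_Ico] at hi
        unfold KS at h1
        rw [Finset.mem_filter] at h1
        exact ⟨⟨i, ⟨n, Finset.mem_singleton_self n, hi.1, hi.2⟩, h1.2.1.2, h1.2.1.1⟩, h1.2.2⟩
    · intro i _ i2 _ hne
      rw [Function.onFun, Finset.disjoint_left]
      intro κ h3 h4
      unfold KS at h3 h4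
      rw [Finset.mem_filter] at h3 h4
      exact hne (fst_unique φ 0 κ h3.2.1.1 h3.2.1.2 h4.2.1.1 h4.2.1.2)
  have h2 : ∀ b, l1 + k * n ≤ b → ∑ i ∈ Ico (l1 + k * n) b,
      (1 / (Fintype.card F : ℝ) ^ i - 1 / (Fintype.card F : ℝ) ^ (i + 1)) =
      1 / (Fintype.card F : ℝ) ^ (l1 + k * n) - 1 / (Fintype.card F : ℝ) ^ b := by
    intro b hb
    induction b, hb using Nat.le_induction with
    | base => simp
    | succ b hb ih =>
      rw [Finset.sum_Ico_succ_top hb, ih]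
      ring
  rw [h1]
  unfold del vT
  rw [Finset.sum_sub_distrib, Finset.sum_singleton, ← Finset.sum_mul, ← Finset.mul_sum,
    h2 _ (by rw [Nat.mul_add]; omega)]
  rfl

end

end Pool.Agent.H555.DN
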