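import Mathlib
import Pool.Agent.H555.DN.Form

set_option autoImplicit false

/-!
# Averaging over the free digits of coordinate `0`
-/

namespace Pool.Agent.H555.DN

open Finset
open Pool.Agent.Q71.DN Pool.Agent.Q174.DN

/-- Directions that keep the switched tiles and the windows of the coordinates `≥ 1`. -/
def Keep {F : Type} [Field F] {m D : ℕ} (φ : Rows F m D) (k L l1 : ℕ) (l' : Fin (D + 1) → ℕ)
    (T : Finset ℕ) (v : Fin m → F) : Prop :=
  (∀ i, l1 ≤ i → i < l1 + k * (2 * L) → (i - l1) / k ∈ T → φ 0 i v = 0) ∧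
    ∀ (j : Fin (D + 1)) (i : ℕ), l' j ≤ i → i < l' j + k * (2 * L) → φ j.succ i v = 0

/-- The pair `b0`, `b1`: digit `0` against top digit on the tiles `T` of the window of coordinate
`0`; every other row of that window agrees on both points or is moved by some kept direction. -/
structure Pair2 {F : Type} [Field F] [Fintype F] {m D : ℕ} (φ : Rows F m D) (ψ : Digs F D)
    (k L l1 : ℕ) (l' : Fin (D + 1) → ℕ) (T : Finset ℕ) (b0 b1 : Fin m → F) : Prop where
  even : ∀ n ∈ T, Even n ∧ n < 2 * L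
  win0 : l1 + k * (2 * L) ≤ m
  win : ∀ j, l' j + k * (2 * L) ≤ m
  pat0 : ∀ (j : Fin (D + 1)) (i : ℕ), l' j ≤ i → i < l' j + k * (2 * L) →
    (ψ j.succ i (φ j.succ i b0) : ℕ) = if Even ((i - l' j) / k) then Fintype.card F - 1 else 0
  pat1 : ∀ (j : Fin (D + 1)) (i : ℕ), l' j ≤ i → i < l' j + k * (2 * L) →
    (ψ j.succ i (φ j.succ i b1) : ℕ) = if Even ((i - l' j) / k) then Fintype.card F - 1 else 0
  onT : ∀ i, l1 ≤ i → i < l1 + k * (2 * L) → (i - l1) / k ∈ T →
    (ψ 0 i (φ 0 i b0) : ℕ) = 0 ∧ (ψ 0 i (φ 0 i b1) : ℕ) = Fintype.card F - 1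
  offT : ∀ i, l1 ≤ i → i < l1 + k * (2 * L) → (i - l1) / k ∉ T → φ 0 i b1 = φ 0 i b0 ∨
    ∃ v : Fin m → F, φ 0 i v ≠ 0 ∧ Keep φ k L l1 l' T v

section

variable {F : Type} [Field F] [Fintype F] {m D : ℕ}

theorem tiles_sum (f : ℕ → ℝ) (k l1 N : ℕ) (hk : 1 ≤ k) (T : Finset ℕ) (hT : ∀ n ∈ T, n < N) :
    ∑ i ∈ Ico l1 (l1 + k * N), (if (i - l1) / k ∈ T then f i else 0) =
      ∑ n ∈ T, ∑ i ∈ Ico (l1 + k * n) (l1 + k * (n + 1)), f i := by
  classical
  rw [← Finset.sum_filter, ← Finset.sum_biUnion]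
  · refine Finset.sum_congr ?_ fun _ _ => rfl
    ext i
    rw [Finset.mem_filter, Finset.mem_biUnion, Finset.mem_Ico]
    constructor
    · rintro ⟨⟨h1, h2⟩, h3⟩
      refine ⟨_, h3, ?_⟩
      rw [Finset.mem_Ico]
      exact (tile_iff k l1 i _ hk h1).2 rfl
    · rintro ⟨n, hn, h⟩
      rw [Finset.mem_Ico] at h
      have h1 : l1 ≤ i := by omega
      have h2 := (tile_iff k l1 i n hk h1).1 h
      have h3 : k * (n + 1) ≤ k * N := Nat.mul_le_mul_left k (hT n hn)
      refine ⟨⟨h1, by omega⟩, ?_⟩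
      rw [h2]
      exact hn
  · intro n _ n' _ hne
    rw [Function.onFun, Finset.disjoint_left]
    intro i h1 h2
    rw [Finset.mem_Ico] at h1 h2
    have h3 := (tile_iff k l1 i n hk (by omega)).1 h1
    have h4 := (tile_iff k l1 i n' hk (by omega)).1 h2
    exact hne (h3.symm.trans h4)

/-- **Averaging.** -/
theorem real2 (φ : Rows F m D) (ψ : Digs F D) (x : (Fin m → F) → Fin (D + 2) → ℝ)
    (hx : IsDig φ ψ x) (R : ℝ) (hR : Bd x R) (k L l1 : ℕ) (l' : Fin (D + 1) → ℕ) (T : Finset ℕ)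
    (b0 b1 : Fin m → F) (hk : 1 ≤ k) (hL : 1 ≤ L) (hP : Pair2 φ ψ k L l1 l' T b0 b1) :
    |∑ n ∈ T, (Phi φ k (2 * L - 1) l' (l1 + k * n) -
      Phi φ k (2 * L - 1) l' (l1 + k * (n + 1)))| ≤ 2 * R := by
  classical
  set W : Finset (Fin m → F) := univ.filter fun v => Keep φ k L l1 l' T v with hW
  have hW0 : (0 : Fin m → F) ∈ W := by
    rw [hW, Finset.mem_filter]
    refine ⟨Finset.mem_univ _, fun i _ _ _ => map_zero _, fun j i _ _ => map_zero _⟩
  have hWc : (0 : ℝ) < (W.card : ℝ) := by exact_mod_cast Finset.card_pos.2 ⟨0, hW0⟩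
  have hWadd : ∀ v ∈ W, ∀ z : Fin m → F, ∀ c : F, Keep φ k L l1 l' T z → v + c • z ∈ W := by
    intro v hv z c hz
    rw [hW, Finset.mem_filter] at hv ⊢
    refine ⟨Finset.mem_univ _, fun i h1 h2 h3 => ?_, fun j i h1 h2 => ?_⟩
    · rw [map_add, map_smul, hv.2.1 i h1 h2 h3, hz.1 i h1 h2 h3, smul_zero, add_zero]
    · rw [map_add, map_smul, hv.2.2 j i h1 h2, hz.2 j i h1 h2, smul_zero, add_zero]
  have hqm1 : (0 : ℝ) < (Fintype.card F : ℝ) - 1 := by
    have hq2 : 2 ≤ Fintype.card F := Fintype.one_lt_card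
    have : (2 : ℝ) ≤ (Fintype.card F : ℝ) := by exact_mod_cast hq2
    linarith
  have hq1 : 1 ≤ Fintype.card F := Fintype.card_pos
  -- the two families of boxes
  have hD : ∀ b : Fin m → F, (∀ (j : Fin (D + 1)) (i : ℕ), l' j ≤ i → i < l' j + k * (2 * L) →
      (ψ j.succ i (φ j.succ i b) : ℕ) = if Even ((i - l' j) / k) then Fintype.card F - 1 else 0) →
      ∀ v ∈ W, |∑ i ∈ Ico l1 (l1 + k * (2 * L)), th φ ψ i (b + v) * del φ k (2 * L - 1) l' i|
        ≤ R := by
    intro b hb v hv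
    rw [hW, Finset.mem_filter] at hv
    refine disc_formula φ ψ x hx R hR k L l1 l' hk hL hP.win0 hP.win (b + v) fun j i h1 h2 => ?_
    rw [map_add, hv.2.2 j i h1 h2, add_zero]
    exact hb j i h1 h2
  -- the average difference of the digits
  have havg : ∀ i ∈ Ico l1 (l1 + k * (2 * L)), ∑ v ∈ W, (th φ ψ i (b1 + v) - th φ ψ i (b0 + v)) =
      if (i - l1) / k ∈ T then (W.card : ℝ) else 0 := by
    intro i hi
    rw [Finset.mem_Ico] at hi
    by_cases hT : (i - l1) / k ∈ T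
    · rw [if_pos hT]
      have h1 : ∀ v ∈ W, th φ ψ i (b1 + v) - th φ ψ i (b0 + v) = 1 := by
        intro v hv
        rw [hW, Finset.mem_filter] at hv
        have h2 := hv.2.1 i hi.1 hi.2 hT
        have h3 := hP.onT i hi.1 hi.2 hT
        unfold th
        rw [(φ 0 i).map_add, (φ 0 i).map_add, h2, add_zero, add_zero, h3.1, h3.2, Nat.cast_zero,
          zero_div, sub_zero, Nat.cast_sub hq1, Nat.cast_one, div_self hqm1.ne']
      rw [Finset.sum_congr rfl h1, Finset.sum_const, nsmul_eq_mul, mul_one]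
    · rw [if_neg hT, Finset.sum_sub_distrib, sub_eq_zero]
      rcases hP.offT i hi.1 hi.2 hT with h | ⟨z, hz0, hz⟩
      · refine Finset.sum_congr rfl fun v _ => ?_
        unfold th
        rw [(φ 0 i).map_add, (φ 0 i).map_add, h]
      · obtain ⟨c, hc⟩ : ∃ c : F, c * φ 0 i z = φ 0 i b1 - φ 0 i b0 :=
          ⟨(φ 0 i b1 - φ 0 i b0) * (φ 0 i z)⁻¹, by rw [mul_assoc, inv_mul_cancel₀ hz0, mul_one]⟩
        refine Finset.sum_bij (fun v _ => v + c • z) (fun v hv => hWadd v hv z c hz) ?_ ?_ ?_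
        · intro a _ b _ hab
          exact add_right_cancel hab
        · intro v hv
          refine ⟨v + (-c) • z, hWadd v hv z (-c) hz, ?_⟩
          rw [add_assoc, ← add_smul, neg_add_cancel, zero_smul, add_zero]
        · intro v _
          have h4 : φ 0 i (b1 + v) = φ 0 i (b0 + (v + c • z)) := by
            rw [(φ 0 i).map_add, (φ 0 i).map_add, (φ 0 i).map_add, map_smul, smul_eq_mul, hc]
            ring
          unfold th
          rw [h4]
  have hsum : (W.card : ℝ) * ∑ n ∈ T, (Phi φ k (2 * L - 1) l' (l1 + k * n) -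
      Phi φ k (2 * L - 1) l' (l1 + k * (n + 1))) =
      ∑ v ∈ W, ((∑ i ∈ Ico l1 (l1 + k * (2 * L)), th φ ψ i (b1 + v) * del φ k (2 * L - 1) l' i) -
        ∑ i ∈ Ico l1 (l1 + k * (2 * L)), th φ ψ i (b0 + v) * del φ k (2 * L - 1) l' i) := by
    rw [Finset.sum_congr rfl fun n _ => (tile_del φ k L l1 n l' hk hL).symm,
      ← tiles_sum (fun i => del φ k (2 * L - 1) l' i) k l1 (2 * L) hk T
        (fun n hn => (hP.even n hn).2), Finset.mul_sum]
    rw [Finset.sum_congr rfl fun v _ => (Finset.sum_sub_distrib _ _).symm, Finset.sum_comm]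
    refine Finset.sum_congr rfl fun i hi => ?_
    rw [Finset.sum_congr rfl fun v _ => (sub_mul _ _ _).symm, ← Finset.sum_mul, havg i hi]
    by_cases hT : (i - l1) / k ∈ T
    · rw [if_pos hT, if_pos hT]
    · rw [if_neg hT, if_neg hT, mul_zero, zero_mul]
  have habs : (W.card : ℝ) * |∑ n ∈ T, (Phi φ k (2 * L - 1) l' (l1 + k * n) -
      Phi φ k (2 * L - 1) l' (l1 + k * (n + 1)))| ≤ (W.card : ℝ) * (2 * R) := by
    rw [← abs_of_pos hWc, ← abs_mul, abs_of_pos hWc, hsum]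
    refine (Finset.abs_sum_le_sum_abs _ _).trans ?_
    rw [← nsmul_eq_mul]
    refine Finset.sum_le_card_nsmul _ _ _ fun v hv => ?_
    have h1 := hD b1 hP.pat1 v hv
    have h2 := hD b0 hP.pat0 v hv
    refine (abs_sub _ _).trans ?_
    linarith
  exact le_of_mul_le_mul_left habs hWc

end

end Pool.Agent.H555.DN
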