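import Mathlib
import Pool.Agent.H555.DN.Avg
import Pool.Graph.R_pool_sql_team_seeded_3997aac3.Q241.DN.DN8

set_option autoImplicit false

/-!
# Many cells: a patch of `N ^ D` cells, one of which has few dependent rows
-/

namespace Pool.Agent.H555.DN

open Finset Submodule
open Pool.Agent.Q71.DN
open Pool.Agent.Q241.DN (vv winX net_on mem_span_inter disj surj_of_indep' finrank_winX fr_le)

variable {F : Type} [Field F] {m D : ℕ}

/-- The lower ends of the windows of the coordinates `≥ 1` in the cell `u`. -/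
def lc (w B b : ℕ) (u : Fin D → ℕ) : Fin (D + 1) → ℕ :=
  Fin.cons (α := fun _ => ℕ) (B - w * ∑ i, u i) (fun i => b + w * u i)

/-- The windows of the cell `u`. -/
def bk (w B b : ℕ) (u : Fin D → ℕ) : Set (Fin (D + 2) × ℕ) :=
  {x | ∃ j : Fin (D + 1), x.1 = j.succ ∧ lc w B b u j ≤ x.2 ∧ x.2 < lc w B b u j + w}

/-- The levels of the first net. -/
def A1 (D N w B b : ℕ) : Fin (D + 2) → ℕ :=
  Fin.cons (α := fun _ => ℕ) 0 (Fin.cons (α := fun _ => ℕ) (B + w) (fun _ : Fin D => b + N * w))

/-- The levels of the second net. -/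
def A2 (N w B b l1 : ℕ) (j : Fin D) : Fin (D + 2) → ℕ :=
  Fin.cons (α := fun _ => ℕ) (l1 + w)
    (Fin.cons (α := fun _ => ℕ) (B + w) (fun i : Fin D => if i = j then 0 else b + N * w))

/-- The common part of the windows of two cells with different `j`-th index. -/
def Cj (N w B b : ℕ) (j : Fin D) : Set (Fin (D + 2) × ℕ) :=
  {x | x.1 ≠ 0 ∧ x.1 ≠ j.succ.succ ∧ x.2 < A1 D N w B b x.1}

theorem sum_A1 (D N w B b : ℕ) : ∑ j, A1 D N w B b j = B + w + D * (b + N * w) := by
  unfold A1
  rw [Fin.sum_cons, Fin.sum_cons, Finset.sum_const, Finset.card_univ, Fintype.card_fin,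
    smul_eq_mul, zero_add]

theorem sum_A2 (N w B b l1 : ℕ) (j : Fin D) :
    ∑ x, A2 N w B b l1 j x + (b + N * w) = l1 + w + (B + w) + D * (b + N * w) := by
  unfold A2
  rw [Fin.sum_cons, Fin.sum_cons]
  have h1 : ∑ i : Fin D, (if i = j then 0 else b + N * w) + (b + N * w) = D * (b + N * w) := by
    have h2 : ∑ i : Fin D, ((if i = j then 0 else b + N * w) + (if i = j then b + N * w else 0)) =
        D * (b + N * w) := by
      rw [Finset.sum_congr rfl (g := fun _ => b + N * w)]
      · rw [Finset.sum_const, Finset.card_univ, Fintype.card_fin, smul_eq_mul]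
      · intro i _
        split_ifs <;> simp
    rw [Finset.sum_add_distrib, Finset.sum_ite_eq' Finset.univ j, if_pos (Finset.mem_univ j)] at h2
    exact h2
  omega

theorem bk_sub {N w B b : ℕ} (u : Fin D → ℕ) (hu : ∀ i, u i < N) :
    bk w B b u ⊆ {x | x.2 < A1 D N w B b x.1} := by
  rintro ⟨j0, i⟩ ⟨j, h1, h2, h3⟩
  simp only at h1 h2 h3
  subst h1
  simp only [Set.mem_ofPred_eq, A1, Fin.cons_succ]
  unfold lc at h2 h3
  induction j using Fin.cases with
  | zero =>
    rw [Fin.cons_zero] at h2 h3 ⊢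
    omega
  | succ j' =>
    rw [Fin.cons_succ] at h2 h3 ⊢
    have h6 : w * u j' + w ≤ N * w := by
      have h7 : (u j' + 1) * w ≤ N * w := Nat.mul_le_mul_right w (hu j')
      have h8 : (u j' + 1) * w = w * u j' + w := by ring
      omega
    omega

theorem bk_inter {N w B b : ℕ} {u u' : Fin D → ℕ} (hu : ∀ i, u i < N) (j : Fin D)
    (hne : u j ≠ u' j) : bk w B b u ∩ bk w B b u' ⊆ Cj N w B b j := by
  rintro ⟨j0, i⟩ ⟨h, h'⟩
  refine ⟨?_, ?_, bk_sub u hu h⟩
  · obtain ⟨j1, h1, h2, h3⟩ := h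
    simp only at h1 ⊢
    rw [h1]
    exact Fin.succ_ne_zero _
  · obtain ⟨j1, h1, h2, h3⟩ := h
    obtain ⟨j1', h1', h2', h3'⟩ := h'
    simp only at h1 h2 h3 h1' h2' h3' ⊢
    intro h4
    apply hne
    rw [h4] at h1 h1'
    have e1 : j1 = j.succ := (Fin.succ_injective _ h1).symm
    have e2 : j1' = j.succ := (Fin.succ_injective _ h1').symm
    subst e1
    rw [e2] at h2' h3'
    unfold lc at h2 h3 h2' h3'
    rw [Fin.cons_succ] at h2 h3 h2' h3'
    have h5 : w * u j < w * (u' j + 1) := by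
      have : w * (u' j + 1) = w * u' j + w := by ring
      omega
    have h6 : w * u' j < w * (u j + 1) := by
      have : w * (u j + 1) = w * u j + w := by ring
      omega
    have h7 := Nat.lt_of_mul_lt_mul_left h5
    have h8 := Nat.lt_of_mul_lt_mul_left h6
    omega

theorem winX_sub2 (N w B b l1 : ℕ) (j : Fin D) :
    winX D l1 w ⊆ {x | x.2 < A2 N w B b l1 j x.1} := by
  rintro ⟨j0, i⟩ ⟨h1, h2, h3⟩
  simp only at h1 h2 h3
  subst h1
  simpa [A2] using h3

theorem Cj_sub2 (N w B b l1 : ℕ) (j : Fin D) :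
    Cj N w B b j ⊆ {x | x.2 < A2 N w B b l1 j x.1} := by
  rintro ⟨j0, i⟩ ⟨h1, h2, h3⟩
  simp only at h1 h2 h3
  simp only [Set.mem_ofPred_eq]
  unfold A1 at h3
  unfold A2
  induction j0 using Fin.cases with
  | zero => exact absurd rfl h1
  | succ j1 =>
    rw [Fin.cons_succ] at h3 ⊢
    induction j1 using Fin.cases with
    | zero => simpa using h3
    | succ j2 =>
      rw [Fin.cons_succ] at h3 ⊢
      rw [if_neg]
      · exact h3
      · rintro rfl
        exact h2 rfl

theorem winX_disj2 (N w B b l1 : ℕ) (j : Fin D) : Disjoint (winX D l1 w) (Cj N w B b j) := by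
  rw [Set.disjoint_left]
  rintro ⟨j0, i⟩ ⟨h1, _, _⟩ ⟨h2, _, _⟩
  exact h2 h1

/-- One step: the partial sums with a fixed `j`-th index vanish. -/
theorem cell_step {t : ℕ} {φ : Rows F m D} (h : IsNet t φ) {N w B b l1 : ℕ}
    (h1 : B + w + D * (b + N * w) + t ≤ m)
    (h2 : l1 + w + (B + w) + D * (b + N * w) + t ≤ m + (b + N * w))
    (U : Finset (Fin D → Fin N)) (x : (Fin D → Fin N) → ((Fin m → F) →ₗ[F] F))
    (hx : ∀ u ∈ U, x u ∈ span F (vv φ '' winX D l1 w) ∧
      x u ∈ span F (vv φ '' bk w B b (fun i => (u i : ℕ))))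
    (h0 : ∑ u ∈ U, x u = 0) (j : Fin D) (a : Fin N) :
    ∑ u ∈ U.filter (fun u => u j = a), x u = 0 := by
  classical
  have n1 := net_on h (A1 D N w B b) (by rw [sum_A1]; exact h1)
  have n2 := net_on h (A2 N w B b l1 j) (by
    have := sum_A2 N w B b l1 j
    omega)
  have h3 := Finset.sum_filter_add_sum_filter_not U (fun u => u j = a) x
  rw [h0] at h3
  have h4 : ∑ u ∈ U.filter (fun u => u j = a), x u = -∑ u ∈ U.filter (fun u => ¬ u j = a), x u :=
    eq_neg_of_add_eq_zero_left h3
  have hz0 : ∑ u ∈ U.filter (fun u => u j = a), x u ∈ span F (vv φ '' winX D l1 w) :=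
    Submodule.sum_mem _ fun u hu => (hx u (Finset.mem_filter.1 hu).1).1
  have hz1 : ∑ u ∈ U.filter (fun u => u j = a), x u ∈
      span F (vv φ '' (⋃ u ∈ U.filter (fun u => u j = a), bk w B b (fun i => (u i : ℕ)))) := by
    refine Submodule.sum_mem _ fun u hu => ?_
    refine Submodule.span_mono (Set.image_mono ?_) (hx u (Finset.mem_filter.1 hu).1).2
    exact Set.subset_biUnion_of_mem (u := fun u : Fin D → Fin N => bk w B b (fun i => (u i : ℕ))) hu
  have hz2 : ∑ u ∈ U.filter (fun u => u j = a), x u ∈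
      span F (vv φ '' (⋃ u ∈ U.filter (fun u => ¬ u j = a), bk w B b (fun i => (u i : ℕ)))) := by
    rw [h4]
    refine Submodule.neg_mem _ (Submodule.sum_mem _ fun u hu => ?_)
    refine Submodule.span_mono (Set.image_mono ?_) (hx u (Finset.mem_filter.1 hu).1).2
    exact Set.subset_biUnion_of_mem (u := fun u : Fin D → Fin N => bk w B b (fun i => (u i : ℕ))) hu
  have h5 := mem_span_inter n1 (Set.iUnion₂_subset fun u _ => bk_sub _ fun i => (u i).2)
    (Set.iUnion₂_subset fun u _ => bk_sub _ fun i => (u i).2) hz1 hz2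
  have hsub : (⋃ u ∈ U.filter (fun u => u j = a), bk w B b (fun i => (u i : ℕ))) ∩
      (⋃ u ∈ U.filter (fun u => ¬ u j = a), bk w B b (fun i => (u i : ℕ))) ⊆ Cj N w B b j := by
    rintro y ⟨hy1, hy2⟩
    rw [Set.mem_iUnion₂] at hy1 hy2
    obtain ⟨u, hu, hyu⟩ := hy1
    obtain ⟨u', hu', hyu'⟩ := hy2
    refine bk_inter (fun i => (u i).2) j ?_ ⟨hyu, hyu'⟩
    have e1 := (Finset.mem_filter.1 hu).2
    have e2 := (Finset.mem_filter.1 hu').2
    intro h6
    apply e2
    rw [← e1]
    exact (Fin.ext h6).symm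
  exact disj n2 (winX_sub2 N w B b l1 j) (Cj_sub2 N w B b l1 j) (winX_disj2 N w B b l1 j) hz0
    (Submodule.span_mono (Set.image_mono hsub) h5)

/-- The intersections are independent. -/
theorem cell_indep {t : ℕ} {φ : Rows F m D} (h : IsNet t φ) {N w B b l1 : ℕ}
    (h1 : B + w + D * (b + N * w) + t ≤ m)
    (h2 : l1 + w + (B + w) + D * (b + N * w) + t ≤ m + (b + N * w))
    (x : (Fin D → Fin N) → ((Fin m → F) →ₗ[F] F))
    (hx : ∀ u, x u ∈ span F (vv φ '' winX D l1 w) ∧
      x u ∈ span F (vv φ '' bk w B b (fun i => (u i : ℕ))))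
    (h0 : ∑ u, x u = 0) (v : Fin D → Fin N) : x v = 0 := by
  classical
  have key : ∀ S : Finset (Fin D),
      ∑ u ∈ Finset.univ.filter (fun u : Fin D → Fin N => ∀ i ∈ S, u i = v i), x u = 0 := by
    intro S
    induction S using Finset.induction_on with
    | empty => simpa using h0
    | insert j S hj ih =>
      have h3 := cell_step h h1 h2 _ x (fun u _ => hx u) ih j (v j)
      rw [Finset.filter_filter] at h3
      rw [← h3]
      refine Finset.sum_congr (Finset.filter_congr fun u _ => ?_) fun _ _ => rfl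
      constructor
      · intro h4
        exact ⟨fun i hi => h4 i (Finset.mem_insert_of_mem hi), h4 j (Finset.mem_insert_self j S)⟩
      · rintro ⟨h4, h5⟩ i hi
        rcases Finset.mem_insert.1 hi with h6 | h6
        · rw [h6]
          exact h5
        · exact h4 i h6
  have h3 := key Finset.univ
  have h4 : Finset.univ.filter (fun u : Fin D → Fin N => ∀ i ∈ Finset.univ, u i = v i) = {v} := by
    ext u
    simp only [Finset.mem_filter, Finset.mem_univ, true_and, Finset.mem_singleton, forall_true_left]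
    exact ⟨fun h5 => funext h5, fun h5 i => by rw [h5]⟩
  rw [h4, Finset.sum_singleton] at h3
  exact h3

/-- Independent intersections, for a general index type. -/
theorem sum_finrank_abs2 {W : Type} [AddCommGroup W] [Module F W] [Module.Finite F W] {ι : Type}
    [Fintype ι] (X : Submodule F W) (U : ι → Submodule F W)
    (h : ∀ x : ι → W, (∀ s, x s ∈ X ∧ x s ∈ U s) → ∑ s, x s = 0 → ∀ s, x s = 0) :
    ∑ s : ι, Module.finrank F (X ⊓ U s : Submodule F W) ≤ Module.finrank F X := by
  classical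
  rw [← Module.finrank_pi_fintype]
  let f : (Π s : ι, (X ⊓ U s : Submodule F W)) →ₗ[F] X :=
    ∑ s : ι, (Submodule.inclusion inf_le_left).comp (LinearMap.proj s)
  have hf : Function.Injective f := by
    rw [← LinearMap.ker_eq_bot, LinearMap.ker_eq_bot']
    intro x hx
    have h3 : ∑ s, ((x s : W)) = 0 := by
      have h4 : ((f x : X) : W) = 0 := by
        rw [hx]
        rfl
      rw [← h4]
      simp [f, LinearMap.sum_apply]
    funext s
    apply Subtype.ext
    exact h (fun s => (x s : W)) (fun s => Submodule.mem_inf.1 (x s).2) h3 s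
  exact LinearMap.finrank_le_finrank_of_injective hf

/-- For one cell: the number of dependent rows is at most the dimension of the intersection. -/
theorem one_cell2 {t : ℕ} {φ : Rows F m D} (hD : 1 ≤ D) (h : IsNet t φ) {N w B b l1 : ℕ}
    (h1 : B + w + D * (b + N * w) + t ≤ m) (h2 : l1 + D * w + t ≤ m) (u : Fin D → ℕ)
    (hu : ∀ i, u i < N) :
    ∃ I ⊆ Ico l1 (l1 + w), w - I.card ≤
      Module.finrank F (span F (vv φ '' winX D l1 w) ⊓ span F (vv φ '' bk w B b u) :
        Submodule F _) ∧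
      ∀ c : Fin (D + 2) → ℕ → F, ∃ v : Fin m → F, (∀ i ∈ I, φ 0 i v = c 0 i) ∧
          ∀ (j : Fin (D + 1)) (i : ℕ), lc w B b u j ≤ i → i < lc w B b u j + w →
            φ j.succ i v = c j.succ i := by
  classical
  have n1 := net_on h (A1 D N w B b) (by rw [sum_A1]; exact h1)
  obtain ⟨Bs, hB1, hB2, hB3, hB4⟩ := exists_linearIndepOn_extension (n1.mono (bk_sub u hu))
    (Set.subset_union_left : bk w B b u ⊆ bk w B b u ∪ winX D l1 w)
  refine ⟨(Ico l1 (l1 + w)).filter (fun i => ((0 : Fin (D + 2)), i) ∈ Bs), Finset.filter_subset _ _, ?_, ?_⟩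
  · obtain ⟨I, hI⟩ : ∃ I, I = (Ico l1 (l1 + w)).filter (fun i => ((0 : Fin (D + 2)), i) ∈ Bs) := ⟨_, rfl⟩
    rw [← hI]
    have h3 : span F (vv φ '' winX D l1 w) ⊔ span F (vv φ '' bk w B b u) ≤
        span F (vv φ '' bk w B b u) ⊔ span F ((fun i => φ 0 i) '' (I : Set ℕ)) := by
      have h4 : span F (vv φ '' Bs) ≤
          span F (vv φ '' bk w B b u) ⊔ span F ((fun i => φ 0 i) '' (I : Set ℕ)) := by
        rw [← Submodule.span_union, Submodule.span_le]
        rintro _ ⟨x, hx, rfl⟩
        apply Submodule.subset_span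
        rcases hB1 hx with h5 | h5
        · exact Or.inl ⟨x, h5, rfl⟩
        · right
          obtain ⟨h6, h7, h8⟩ := h5
          refine ⟨x.2, ?_, ?_⟩
          · rw [Finset.mem_coe, hI, Finset.mem_filter, Finset.mem_Ico]
            refine ⟨⟨h7, h8⟩, ?_⟩
            rw [← h6]
            exact hx
          · simp only [vv, h6]
      refine le_trans ?_ h4
      rw [← Submodule.span_union, ← Set.image_union, Submodule.span_le, Set.union_comm]
      exact hB3
    have h4 := Submodule.finrank_mono h3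
    have h5 := Submodule.finrank_add_le_finrank_add_finrank (span F (vv φ '' bk w B b u))
      (span F ((fun i => φ 0 i) '' (I : Set ℕ)))
    have h6 : Module.finrank F (span F ((fun i => φ 0 i) '' (I : Set ℕ))) ≤ I.card := fr_le _ I
    have h7 := Submodule.finrank_sup_add_finrank_inf_eq (span F (vv φ '' winX D l1 w)) (span F (vv φ '' bk w B b u))
    rw [finrank_winX hD h h2] at h7
    omega
  · intro c
    have hfin : Finite Bs := LinearIndependent.finite hB4
    obtain ⟨v, hv⟩ := surj_of_indep' _ hB4 (fun x => c x.1.1 x.1.2)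
    refine ⟨v, fun i hi => ?_, fun j i hi1 hi2 => ?_⟩
    · rw [Finset.mem_filter] at hi
      have h5 := hv ⟨(0, i), hi.2⟩
      exact h5
    · have h5 := hv ⟨(j.succ, i), hB2 ⟨j, rfl, hi1, hi2⟩⟩
      exact h5

/-- **A good cell** among `N ^ D` cells. -/
theorem cell3 {t : ℕ} {φ : Rows F m D} (hD : 1 ≤ D) (h : IsNet t φ) {N w B b l1 : ℕ} (hN : 1 ≤ N)
    (h1 : B + w + D * (b + N * w) + t ≤ m)
    (h2 : l1 + w + (B + w) + D * (b + N * w) + t ≤ m + (b + N * w)) :
    ∃ u : Fin D → ℕ, (∀ i, u i < N) ∧ ∃ I ⊆ Ico l1 (l1 + w), N ^ D * (w - I.card) ≤ w ∧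
      ∀ c : Fin (D + 2) → ℕ → F, ∃ v : Fin m → F, (∀ i ∈ I, φ 0 i v = c 0 i) ∧
        ∀ (j : Fin (D + 1)) (i : ℕ), lc w B b u j ≤ i → i < lc w B b u j + w →
          φ j.succ i v = c j.succ i := by
  classical
  have h2' : l1 + D * w + t ≤ m := by
    obtain ⟨D', rfl⟩ : ∃ D', D = D' + 1 := ⟨D - 1, by omega⟩
    have e1 : (D' + 1) * (b + N * w) = D' * (b + N * w) + (b + N * w) := by ring
    have e2 : D' * w ≤ D' * (b + N * w) := Nat.mul_le_mul_left D' (by nlinarith)
    have e3 : (D' + 1) * w = D' * w + w := by ring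
    omega
  by_contra hcon
  push Not at hcon
  have h3 : ∀ u : Fin D → Fin N, w < N ^ D * Module.finrank F
      (span F (vv φ '' winX D l1 w) ⊓ span F (vv φ '' bk w B b (fun i => (u i : ℕ))) :
        Submodule F _) := by
    intro u
    obtain ⟨I, hI1, hI2, hI3⟩ := one_cell2 hD h h1 h2' (fun i => (u i : ℕ)) (fun i => (u i).2)
    by_contra h4
    push Not at h4
    obtain ⟨c, hc⟩ := hcon _ (fun i => (u i).2) I hI1 ((Nat.mul_le_mul_left _ hI2).trans h4)
    obtain ⟨v, hv1, hv2⟩ := hI3 c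
    obtain ⟨j, i, h5, h6, h7⟩ := hc v hv1
    exact h7 (hv2 j i h5 h6)
  have h4 : ∑ u : Fin D → Fin N, Module.finrank F
      (span F (vv φ '' winX D l1 w) ⊓ span F (vv φ '' bk w B b (fun i => (u i : ℕ))) :
        Submodule F _) ≤ w := by
    refine le_trans ?_ (le_of_eq (finrank_winX hD h h2'))
    exact sum_finrank_abs2 (span F (vv φ '' winX D l1 w))
      (fun u : Fin D → Fin N => span F (vv φ '' bk w B b (fun i => (u i : ℕ))))
      (fun x hx h0 s => cell_indep h h1 h2 x hx h0 s)
  have h5 : ∑ u : Fin D → Fin N, w < ∑ u : Fin D → Fin N, N ^ D * Module.finrank F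
      (span F (vv φ '' winX D l1 w) ⊓ span F (vv φ '' bk w B b (fun i => (u i : ℕ))) :
        Submodule F _) := by
    apply Finset.sum_lt_sum_of_nonempty
    · exact ⟨fun _ => ⟨0, by omega⟩, Finset.mem_univ _⟩
    · intro s _
      exact h3 s
  rw [Finset.sum_const, Finset.card_univ, Fintype.card_fun, Fintype.card_fin, Fintype.card_fin,
    smul_eq_mul, ← Finset.mul_sum] at h5
  have h6 := Nat.mul_le_mul_left (N ^ D) h4
  omega

theorem sum_lc {w B b : ℕ} (u : Fin D → ℕ) (hB : w * ∑ i, u i ≤ B) :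
    ∑ j, lc w B b u j = B + D * b := by
  unfold lc
  rw [Fin.sum_cons, Finset.sum_add_distrib, ← Finset.mul_sum, Finset.sum_const, Finset.card_univ,
    Fintype.card_fin, smul_eq_mul]
  omega

end Pool.Agent.H555.DN
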