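import Mathlib
import Pool.Agent.H555.DN.Exist

set_option autoImplicit false

/-!
# The core estimate, with no dependence on the size of the field
-/

namespace Pool.Agent.H555.DN

open Finset
open Pool.Agent.Q71.DN

theorem core2 (F : Type) [Field F] [Fintype F] (m D t : ℕ) (φ : Rows F m D) (ψ : Digs F D)
    (x : (Fin m → F) → Fin (D + 2) → ℝ) (hD : 1 ≤ D) (hnet : IsNet t φ) (hdig : IsDig φ ψ x)
    (R : ℝ) (hBd : Bd x R) (L : ℕ) (hL : 1 ≤ L)
    (hm : (16 * (t + 2) + 2 * D + 1) * (2 * ((t + 2) * L)) ≤ m) :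
    (L : ℝ) ^ (D + 1) ≤ 8 * (4 * D) ^ D * R := by
  obtain ⟨l1, l', T, p0, p1, hlev, hLT, hpair⟩ := pair2 F m D t φ ψ hD hnet L hL hm
  have hreal := real2 φ ψ x hdig R hBd (t + 2) L l1 l' T p0 p1 (by omega) hL hpair
  set P := 2 * L - 1 with hP
  set e := (D + 1) * P with he
  have hPe : P ≤ e := by
    rw [he]
    nlinarith
  have hterm : ∀ n ∈ T, ((n / (2 * D) + 1 : ℕ) : ℝ) ^ D ≤
      (-1 : ℝ) ^ e * (Phi φ (t + 2) P l' (l1 + (t + 2) * n) -
        Phi φ (t + 2) P l' (l1 + (t + 2) * (n + 1))) := by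
    intro n hn
    obtain ⟨heven, hlt⟩ := hpair.even n hn
    have hn1 : n + 1 ≤ P := by
      obtain ⟨a, ha⟩ := heven
      omega
    have h5 := phi_thm F m D t φ hD hnet P n (l1 + (t + 2) * n) l' (by omega) (by
      have h6 : (t + 2) * n + (t + 2) * (e - n) = (t + 2) * e := by
        rw [← Nat.mul_add]
        congr 1
        omega
      rw [← he]
      omega)
    have h7 := phi_thm F m D t φ hD hnet P (n + 1) (l1 + (t + 2) * (n + 1)) l' hn1 (by
      have h6 : (t + 2) * (n + 1) + (t + 2) * (e - (n + 1)) = (t + 2) * e := by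
        rw [← Nat.mul_add]
        congr 1
        omega
      rw [← he]
      omega)
    rw [← he] at h5 h7
    have hs1 : (-1 : ℝ) ^ (e - n) = (-1 : ℝ) ^ e := by
      have h8 : (-1 : ℝ) ^ e = (-1 : ℝ) ^ (e - n) * (-1 : ℝ) ^ n := by
        rw [← pow_add]
        congr 1
        omega
      rw [h8, heven.neg_one_pow, mul_one]
    have hs2 : (-1 : ℝ) ^ (e - (n + 1)) = -(-1 : ℝ) ^ e := by
      have h8 : (-1 : ℝ) ^ e = (-1 : ℝ) ^ (e - (n + 1)) * (-1 : ℝ) ^ (n + 1) := by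
        rw [← pow_add]
        congr 1
        omega
      rw [h8, heven.add_one.neg_one_pow]
      ring
    rw [hs1] at h5
    rw [hs2] at h7
    have hmono : ((n / (2 * D) + 1 : ℕ) : ℝ) ^ D ≤ (((n + 1) / (2 * D) + 1 : ℕ) : ℝ) ^ D := by
      refine pow_le_pow_left₀ (by positivity) ?_ _
      have h9 : n / (2 * D) + 1 ≤ (n + 1) / (2 * D) + 1 :=
        Nat.add_le_add_right (Nat.div_le_div_right (by omega)) 1
      exact_mod_cast h9
    linarith
  have hsum : ∑ n ∈ T, ((n / (2 * D) + 1 : ℕ) : ℝ) ^ D ≤ 2 * R := by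
    calc ∑ n ∈ T, ((n / (2 * D) + 1 : ℕ) : ℝ) ^ D
        ≤ ∑ n ∈ T, (-1 : ℝ) ^ e * (Phi φ (t + 2) P l' (l1 + (t + 2) * n) -
            Phi φ (t + 2) P l' (l1 + (t + 2) * (n + 1))) := Finset.sum_le_sum hterm
      _ = (-1 : ℝ) ^ e * ∑ n ∈ T, (Phi φ (t + 2) P l' (l1 + (t + 2) * n) -
            Phi φ (t + 2) P l' (l1 + (t + 2) * (n + 1))) := by rw [Finset.mul_sum]
      _ ≤ |(-1 : ℝ) ^ e * ∑ n ∈ T, (Phi φ (t + 2) P l' (l1 + (t + 2) * n) -
            Phi φ (t + 2) P l' (l1 + (t + 2) * (n + 1)))| := le_abs_self _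
      _ ≤ 2 * R := by
          rw [abs_mul, abs_pow, abs_neg, abs_one, one_pow, one_mul]
          exact hreal
  have hlow := (Pool.Agent.Q38.DN.sum_lower D hD T fun n hn => (hpair.even n hn).1).trans hsum
  have hDr : (0 : ℝ) < D := by exact_mod_cast hD
  have hLr : (L : ℝ) / 2 ≤ (T.card : ℝ) := by
    have : (L : ℝ) ≤ 2 * (T.card : ℝ) := by exact_mod_cast hLT
    linarith
  have h5 : ((L : ℝ) / 4) * ((L : ℝ) / (4 * D)) ^ D ≤ 2 * R := by
    refine le_trans ?_ hlow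
    have h6 : (L : ℝ) / 4 ≤ (T.card : ℝ) / 2 := by linarith
    have h7 : (L : ℝ) / (4 * D) ≤ (T.card : ℝ) / (2 * D) := by
      rw [div_le_div_iff₀ (by positivity) (by positivity)]
      nlinarith
    exact mul_le_mul h6 (pow_le_pow_left₀ (by positivity) h7 _) (by positivity) (by positivity)
  have h8 : (L : ℝ) ^ (D + 1) = 4 * (4 * D) ^ D * (((L : ℝ) / 4) * ((L : ℝ) / (4 * D)) ^ D) := by
    rw [div_pow, pow_succ]
    field_simp
  rw [h8]
  calc 4 * (4 * (D : ℝ)) ^ D * (((L : ℝ) / 4) * ((L : ℝ) / (4 * D)) ^ D)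
      ≤ 4 * (4 * (D : ℝ)) ^ D * (2 * R) := mul_le_mul_of_nonneg_left h5 (by positivity)
    _ = 8 * (4 * D) ^ D * R := by ring

end Pool.Agent.H555.DN
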