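import Mathlib
import Pool.Agent.H555.DN.Cell3

set_option autoImplicit false

/-!
# Existence of the pair with many tiles, in a patch of many cells
-/

namespace Pool.Agent.H555.DN

open Finset
open Pool.Agent.Q71.DN Pool.Agent.Q190.DN

theorem pair3 (F : Type) [Field F] [Fintype F] (m D t : ℕ) (φ : Rows F m D) (ψ : Digs F D)
    (hD : 1 ≤ D) (hnet : IsNet t φ) (L N : ℕ) (hL : 1 ≤ L) (hN : 8 * (t + 2) ≤ N ^ D)
    (hm : (D + 3) ^ 2 * (N * (2 * ((t + 2) * L))) ≤ m) :
    ∃ (l1 : ℕ) (l' : Fin (D + 1) → ℕ) (T : Finset ℕ) (b0 b1 : Fin m → F),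
      l1 + (∑ j, l' j) + (t + 2) * ((D + 1) * (2 * L - 1)) = m + 2 ∧
      L ≤ 2 * T.card ∧ Pair2 φ ψ (t + 2) L l1 l' T b0 b1 := by
  classical
  set q := Fintype.card F with hq
  have hq2 : 2 ≤ q := Fintype.one_lt_card
  obtain ⟨k, hk⟩ : ∃ k, k = t + 2 := ⟨_, rfl⟩
  obtain ⟨P, hP⟩ : ∃ P, P = 2 * L - 1 := ⟨_, rfl⟩
  have hP1 : P + 1 = 2 * L := by omega
  obtain ⟨w, hw⟩ : ∃ w, w = 2 * (k * L) := ⟨_, rfl⟩
  have hwP : k * (P + 1) = w := by rw [hP1, hw]; ring
  have hwP' : k * P + k = w := by rw [← hwP]; ring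
  have hwL : k * (2 * L) = w := by rw [hw]; ring
  have hN1 : 1 ≤ N := by
    rcases Nat.eq_zero_or_pos N with h | h
    · rw [h, zero_pow (by omega)] at hN
      omega
    · exact h
  rw [← hk] at hN
  rw [← hk, ← hP]
  rw [← hk, ← hw] at hm
  -- expand everything linearly in `N w`, `D w`, `D N w`, `D ^ 2 N w`
  obtain ⟨V, hV⟩ : ∃ V, V = N * w := ⟨_, rfl⟩
  obtain ⟨X, hX⟩ : ∃ X, X = D * V := ⟨_, rfl⟩
  obtain ⟨X2, hX2⟩ : ∃ X2, X2 = D * X := ⟨_, rfl⟩
  obtain ⟨Y, hY⟩ : ∃ Y, Y = D * w := ⟨_, rfl⟩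
  have hmX : X2 + 6 * X + 9 * V ≤ m := by
    have : (D + 3) ^ 2 * (N * w) = X2 + 6 * X + 9 * V := by rw [hX2, hX, hV]; ring
    omega
  have hVw : w ≤ V := by rw [hV]; exact Nat.le_mul_of_pos_left w (by omega)
  have hXV : V ≤ X := by rw [hX]; exact Nat.le_mul_of_pos_left V (by omega)
  have hYw : w ≤ Y := by rw [hY]; exact Nat.le_mul_of_pos_left w (by omega)
  have hYX : Y ≤ X := by rw [hY, hX]; exact Nat.mul_le_mul_left D hVw
  have hkw : k ≤ w := by
    have : k * 1 ≤ k * (P + 1) := Nat.mul_le_mul_left k (by omega)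
    omega
  obtain ⟨Z, hZ⟩ : ∃ Z, Z = k * ((D + 1) * P) := ⟨_, rfl⟩
  have hZk : k ≤ Z := by
    rw [hZ]
    exact Nat.le_mul_of_pos_right k (Nat.mul_pos (by omega) (by omega))
  have hZw : Z ≤ Y + w := by
    have e : Z = (D + 1) * (k * P) := by rw [hZ]; ring
    have e2 : (D + 1) * (k * P) ≤ (D + 1) * w := Nat.mul_le_mul_left _ (by omega)
    have e3 : (D + 1) * w = Y + w := by rw [hY]; ring
    omega
  obtain ⟨b, hb⟩ : ∃ b, b = X + 2 * w := ⟨_, rfl⟩
  have hDb : D * b = X2 + 2 * Y := by rw [hb, hX2, hY]; ring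
  have hDbV : D * (b + N * w) = X2 + 2 * Y + X := by rw [← hV, Nat.mul_add, hDb, ← hX]
  obtain ⟨l1, hl1⟩ : ∃ l1, l1 = m + 2 - Z - X - (X2 + 2 * Y) := ⟨_, rfl⟩
  have hbs : l1 + (X + (X2 + 2 * Y)) + Z = m + 2 := by omega
  have ht : t + 2 = k := hk.symm
  obtain ⟨s, hs, I, hI, hIc, hsurj⟩ := cell3 (w := w) (B := X) (b := b) (l1 := l1) hD hnet hN1
    (by rw [hDbV]; omega) (by rw [hDbV, ← hV]; omega)
  have hsV : ∀ i, w * s i + w ≤ V := by
    intro i
    have h1 : (s i + 1) * w ≤ N * w := Nat.mul_le_mul_right w (hs i)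
    have h2 : (s i + 1) * w = w * s i + w := by ring
    omega
  have hsX : w * ∑ i, s i ≤ X := by
    rw [Finset.mul_sum]
    calc ∑ i, w * s i ≤ ∑ _i : Fin D, V := Finset.sum_le_sum fun i _ => by
          have := hsV i
          omega
      _ = X := by rw [Finset.sum_const, Finset.card_univ, Fintype.card_fin, smul_eq_mul, hX]
  have hlw : ∀ j : Fin (D + 1), lc w X b s j + w ≤ m := by
    intro j
    unfold lc
    induction j using Fin.cases with
    | zero =>
      rw [Fin.cons_zero]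
      omega
    | succ i =>
      rw [Fin.cons_succ]
      have := hsV i
      omega
  -- the defect
  have hIcard : I.card ≤ w := by
    have := Finset.card_le_card hI
    simpa using this
  set J := Ico l1 (l1 + w) \ I with hJ
  have hJc : J.card = w - I.card := by
    rw [hJ, Finset.card_sdiff_of_subset hI]
    simp
  have hrho : 4 * J.card ≤ L := by
    rw [← hJc] at hIc
    have hIc' : 8 * k * J.card ≤ w := (Nat.mul_le_mul_right _ hN).trans hIc
    rw [hw] at hIc'
    have e : 8 * k * J.card = (2 * k) * (4 * J.card) := by ring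
    have e2 : 2 * (k * L) = (2 * k) * L := by ring
    rw [e, e2] at hIc'
    exact Nat.le_of_mul_le_mul_left hIc' (by omega)
  have hk0 : 0 < k := by omega
  -- the good tiles
  set A := (range (2 * L)).filter fun n => Even n ∧
    ∀ i, l1 + k * n ≤ i → i < l1 + k * (n + 1) → i ∈ I with hA
  have hAc : L ≤ A.card + J.card := by
    set Ev := (range (2 * L)).filter fun n => Even n with hEv
    have hEvc : Ev.card = L := by
      have : Ev = (range L).image (fun u => 2 * u) := by
        ext n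
        simp only [hEv, mem_filter, mem_range, mem_image]
        constructor
        · rintro ⟨h1, u, hu⟩
          exact ⟨u, by omega, by omega⟩
        · rintro ⟨u, h1, h2⟩
          exact ⟨by omega, ⟨u, by omega⟩⟩
      rw [this, Finset.card_image_of_injective _ (fun a b h => by simpa using h), card_range]
    have hsplit : Ev.card ≤ A.card + (Ev \ A).card := by
      have hAE : A ⊆ Ev := by
        intro n hn
        simp only [hA, mem_filter] at hn
        simp only [hEv, mem_filter]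
        exact ⟨hn.1, hn.2.1⟩
      rw [Finset.card_sdiff_of_subset hAE]
      omega
    have hbad : (Ev \ A).card ≤ J.card := by
      have hch : ∀ n ∈ Ev \ A, ∃ i ∈ J, (i - l1) / k = n := by
        intro n hn
        rw [mem_sdiff] at hn
        have h1 : n < 2 * L ∧ Even n := by simpa [hEv] using hn.1
        have h2 : ¬ ∀ i, l1 + k * n ≤ i → i < l1 + k * (n + 1) → i ∈ I := by
          intro h
          apply hn.2
          simp only [hA, mem_filter, mem_range]
          exact ⟨h1.1, h1.2, h⟩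
        push Not at h2
        obtain ⟨i, hi1, hi2, hi3⟩ := h2
        have hle : k * (n + 1) ≤ w := by
          rw [← hwP]
          exact Nat.mul_le_mul_left k (by omega)
        refine ⟨i, ?_, (tile hk0 (by omega)).2 ⟨hi1, hi2⟩⟩
        rw [hJ, mem_sdiff, mem_Ico]
        exact ⟨⟨by omega, by omega⟩, hi3⟩
      choose! f hf1 hf2 using hch
      refine Finset.card_le_card_of_injOn f (fun n hn => hf1 n hn) ?_
      intro a ha b hb hab
      rw [← hf2 a ha, ← hf2 b hb, hab]
    omega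
  -- the dual vectors of the free rows
  have hd : ∀ i₀ : ℕ, ∃ v : Fin m → F, (∀ i ∈ I, φ 0 i v = if i = i₀ then 1 else 0) ∧
      ∀ (j : Fin (D + 1)) (i : ℕ), lc w X b s j ≤ i → i < lc w X b s j + w →
        φ j.succ i v = 0 := by
    intro i₀
    obtain ⟨v, hv1, hv2⟩ := hsurj (Fin.cons (α := fun _ => ℕ → F) (fun i => if i = i₀ then
      1 else 0) (fun _ _ => 0))
    refine ⟨v, fun i hi => ?_, fun j i h1 h2 => ?_⟩
    · rw [hv1 i hi, Fin.cons_zero]
    · rw [hv2 j i h1 h2, Fin.cons_succ]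
  choose d hd1 hd2 using hd
  -- the bad tile of a dependent row
  have hbt : ∀ j : ℕ, ∃ n : ℕ, (∃ i₀ ∈ I, φ 0 j (d i₀) ≠ 0) →
      ∃ i₀ ∈ I, φ 0 j (d i₀) ≠ 0 ∧ (i₀ - l1) / k = n := by
    intro j
    by_cases h : ∃ i₀ ∈ I, φ 0 j (d i₀) ≠ 0
    · obtain ⟨i₀, h1, h2⟩ := h
      exact ⟨(i₀ - l1) / k, fun _ => ⟨i₀, h1, h2, rfl⟩⟩
    · exact ⟨0, fun h' => absurd h' h⟩
  choose nb hnb using hbt
  obtain ⟨T, hT⟩ : ∃ T, T = A \ J.image nb := ⟨_, rfl⟩
  have hTc : L ≤ 2 * T.card := by
    have h1 : A.card ≤ T.card + (J.image nb).card := by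
      rw [hT]
      have := Finset.le_card_sdiff (J.image nb) A
      omega
    have h2 : (J.image nb).card ≤ J.card := Finset.card_image_le
    omega
  have hTA' : ∀ n ∈ T, n < 2 * L ∧ Even n ∧
      ∀ i, l1 + k * n ≤ i → i < l1 + k * (n + 1) → i ∈ I := by
    intro n hn
    have h1 : n ∈ A := by
      rw [hT, mem_sdiff] at hn
      exact hn.1
    simpa [hA] using h1
  have hTI : ∀ i, l1 ≤ i → (i - l1) / k ∈ T → i ∈ I := by
    intro i h1 h3
    have h4 := (tile hk0 h1).1 (rfl : (i - l1) / k = (i - l1) / k)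
    exact (hTA' _ h3).2.2 i h4.1 h4.2
  obtain ⟨b0, hb01, hb02⟩ := hsurj (Fin.cons (α := fun _ => ℕ → F)
    (fun i => (ψ 0 i).symm ⟨0, by omega⟩)
    (fun j i => (ψ j.succ i).symm (if Even ((i - lc w X b s j) / k) then ⟨q - 1, by omega⟩
      else ⟨0, by omega⟩)))
  obtain ⟨b1, hb11, hb12⟩ := hsurj (Fin.cons (α := fun _ => ℕ → F)
    (fun i => if (i - l1) / k ∈ T then (ψ 0 i).symm ⟨q - 1, by omega⟩
      else (ψ 0 i).symm ⟨0, by omega⟩)
    (fun j i => (ψ j.succ i).symm (if Even ((i - lc w X b s j) / k) then ⟨q - 1, by omega⟩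
      else ⟨0, by omega⟩)))
  have hkeep : ∀ i₀ ∈ I, (i₀ - l1) / k ∉ T → Keep φ k L l1 (fun j => lc w X b s j) T (d i₀) := by
    intro i₀ _ hi₀T
    refine ⟨fun i h1 _ h3 => ?_, fun j i h1 h2 => ?_⟩
    · rw [hd1 i₀ i (hTI i h1 h3), if_neg]
      rintro rfl
      exact hi₀T h3
    · rw [hwL] at h2
      exact hd2 i₀ j i h1 h2
  refine ⟨l1, fun j => lc w X b s j, T, b0, b1, ?_, hTc, ?_⟩
  · rw [sum_lc s hsX, ← hZ, hDb]
    omega
  · refine ⟨fun n hn => ⟨(hTA' n hn).2.1, (hTA' n hn).1⟩, by rw [hwL]; omega,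
      fun j => by rw [hwL]; exact hlw j, ?_, ?_, ?_, ?_⟩
    · intro j i h1 h2
      rw [hwL] at h2
      rw [hb02 j i h1 h2, Fin.cons_succ]
      split_ifs with h <;> simp [← hq]
    · intro j i h1 h2
      rw [hwL] at h2
      rw [hb12 j i h1 h2, Fin.cons_succ]
      split_ifs with h <;> simp [← hq]
    · intro i h1 h2 h3
      have hiI : i ∈ I := hTI i h1 h3
      refine ⟨?_, ?_⟩
      · rw [hb01 i hiI, Fin.cons_zero]
        simp
      · rw [hb11 i hiI, Fin.cons_zero, if_pos h3]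
        simp [← hq]
    · intro i h1 h2 h3
      rw [hwL] at h2
      by_cases hiI : i ∈ I
      · right
        refine ⟨d i, ?_, hkeep i hiI h3⟩
        rw [hd1 i i hiI, if_pos rfl]
        exact one_ne_zero
      · have hiJ : i ∈ J := by
          rw [hJ, mem_sdiff, mem_Ico]
          exact ⟨⟨h1, h2⟩, hiI⟩
        by_cases hex : ∃ i₀ ∈ I, φ 0 i (d i₀) ≠ 0
        · right
          obtain ⟨i₀, h4, h5, h6⟩ := hnb i hex
          refine ⟨d i₀, h5, hkeep i₀ h4 ?_⟩
          rw [h6, hT, mem_sdiff]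
          rintro ⟨-, h7⟩
          exact h7 (mem_image_of_mem nb hiJ)
        · push Not at hex
          by_cases heq : φ 0 i b1 = φ 0 i b0
          · left
            exact heq
          · right
            refine ⟨b1 - b0 - ∑ i₀ ∈ I, (φ 0 i₀ (b1 - b0)) • d i₀, ?_, ?_, ?_⟩
            · rw [map_sub, map_sum, Finset.sum_eq_zero, sub_zero, map_sub, sub_ne_zero]
              · exact heq
              · intro i₀ hi₀
                rw [map_smul, hex i₀ hi₀, smul_zero]
            · intro i' h4 _ h6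
              have hi'I := hTI i' h4 h6
              rw [map_sub, map_sum, Finset.sum_eq_single i']
              · rw [map_smul, hd1 i' i' hi'I, if_pos rfl, smul_eq_mul, mul_one, sub_self]
              · intro i₀ _ hne
                rw [map_smul, hd1 i₀ i' hi'I, if_neg hne.symm, smul_zero]
              · intro h
                exact absurd hi'I h
            · intro j i' h4 h5
              rw [hwL] at h5
              rw [map_sub, map_sum, Finset.sum_eq_zero, sub_zero, map_sub, hb12 j i' h4 h5,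
                hb02 j i' h4 h5, Fin.cons_succ, Fin.cons_succ, sub_self]
              intro i₀ _
              rw [map_smul, hd2 i₀ j i' h4 h5, smul_zero]

end Pool.Agent.H555.DN
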