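import Mathlib
import Pool.Agent.H555.DN.Core3

set_option autoImplicit false

/-!
# The main estimate for all half open boxes, with the exponent `1 + 1 / D`
-/

namespace Pool.Agent.H555.DN

open Finset
open Pool.Agent.Q71.DN

/-- the number of cells in one direction -/
noncomputable def nn (D t : ℕ) : ℕ := ⌈((8 * (t + 2) : ℕ) : ℝ) ^ (1 / (D : ℝ))⌉₊

theorem nn_pow (D t : ℕ) (hD : 1 ≤ D) : 8 * (t + 2) ≤ nn D t ^ D := by
  have hD' : (0 : ℝ) < D := by exact_mod_cast hD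
  have h1 : ((8 * (t + 2) : ℕ) : ℝ) ^ (1 / (D : ℝ)) ≤ (nn D t : ℝ) := Nat.le_ceil _
  have h2 : (((8 * (t + 2) : ℕ) : ℝ) ^ (1 / (D : ℝ))) ^ D ≤ (nn D t : ℝ) ^ D :=
    pow_le_pow_left₀ (by positivity) h1 D
  rw [← Real.rpow_natCast (((8 * (t + 2) : ℕ) : ℝ) ^ (1 / (D : ℝ))) D, ← Real.rpow_mul (by positivity),
    one_div_mul_cancel hD'.ne', Real.rpow_one] at h2
  exact_mod_cast h2

theorem nn_le (D t : ℕ) (hD : 1 ≤ D) : (nn D t : ℝ) ≤ 32 * ((t : ℝ) + 1) ^ (1 / (D : ℝ)) := by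
  have hD' : (1 : ℝ) ≤ D := by exact_mod_cast hD
  have ht0 : (0 : ℝ) ≤ t := Nat.cast_nonneg t
  have hinv : (0 : ℝ) ≤ 1 / (D : ℝ) := by positivity
  have hinv1 : 1 / (D : ℝ) ≤ 1 := by
    rw [div_le_one (by linarith)]
    exact hD'
  have h1 : (1 : ℝ) ≤ ((8 * (t + 2) : ℕ) : ℝ) ^ (1 / (D : ℝ)) := by
    apply Real.one_le_rpow _ hinv
    push_cast
    linarith
  have h2 : (nn D t : ℝ) ≤ ((8 * (t + 2) : ℕ) : ℝ) ^ (1 / (D : ℝ)) + 1 :=
    (Nat.ceil_lt_add_one (by positivity)).le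
  have h3 : ((8 * (t + 2) : ℕ) : ℝ) ^ (1 / (D : ℝ)) ≤ (16 * ((t : ℝ) + 1)) ^ (1 / (D : ℝ)) := by
    apply Real.rpow_le_rpow (by positivity) _ hinv
    push_cast
    linarith
  have h4 : (16 * ((t : ℝ) + 1)) ^ (1 / (D : ℝ)) = 16 ^ (1 / (D : ℝ)) * ((t : ℝ) + 1) ^ (1 / (D : ℝ)) :=
    Real.mul_rpow (by norm_num) (by positivity)
  have h5 : (16 : ℝ) ^ (1 / (D : ℝ)) ≤ 16 := by
    calc (16 : ℝ) ^ (1 / (D : ℝ)) ≤ 16 ^ (1 : ℝ) :=
          Real.rpow_le_rpow_of_exponent_le (by norm_num) hinv1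
      _ = 16 := Real.rpow_one _
  have h6 : (0 : ℝ) ≤ ((t : ℝ) + 1) ^ (1 / (D : ℝ)) := by positivity
  calc (nn D t : ℝ) ≤ 2 * ((8 * (t + 2) : ℕ) : ℝ) ^ (1 / (D : ℝ)) := by linarith
    _ ≤ 2 * (16 ^ (1 / (D : ℝ)) * ((t : ℝ) + 1) ^ (1 / (D : ℝ))) := by
        rw [← h4]
        linarith
    _ ≤ 2 * (16 * ((t : ℝ) + 1) ^ (1 / (D : ℝ))) := by
        have := mul_le_mul_of_nonneg_right h5 h6
        linarith
    _ = _ := by ring

/-- the constant -/
noncomputable def c3 (D : ℕ) : ℝ := 1 / ((256 * (D + 3) ^ 2) ^ (D + 1) * (8 * (4 * D) ^ D))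

theorem c3_pos (D : ℕ) (hD : 1 ≤ D) : 0 < c3 D := by
  have hD' : (1 : ℝ) ≤ D := by exact_mod_cast hD
  unfold c3; positivity

theorem part3 (D : ℕ) (hD : 1 ≤ D) (F : Type) [Field F] [Fintype F]
    (m : ℕ) (φ : Rows F m D) (ψ : Digs F D) (x : (Fin m → F) → Fin (D + 2) → ℝ)
    (hx : IsDig φ ψ x) (R : ℝ) (hR : Bd x R) (t : ℕ) (ht : IsNet t φ) :
    c3 D * ((m : ℝ) / ((t : ℝ) + 1) ^ (1 + 1 / (D : ℝ))) ^ (D + 1) ≤ R := by
  have hD' : (1 : ℝ) ≤ D := by exact_mod_cast hD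
  have hR2 : 1 / 2 ≤ R := (t_thm F m D φ ψ x hx R hR).1
  have ht0 : (0 : ℝ) ≤ t := Nat.cast_nonneg t
  have hN := nn_pow D t hD
  have hNle := nn_le D t hD
  obtain ⟨N, hNd⟩ : ∃ N, N = nn D t := ⟨_, rfl⟩
  rw [← hNd] at hN hNle
  have hN1 : 1 ≤ N := by
    rcases Nat.eq_zero_or_pos N with h | h
    · rw [h, zero_pow (by omega)] at hN
      omega
    · exact h
  set M : ℕ := (D + 3) ^ 2 * (N * (2 * (t + 2))) with hM
  have hMpos : 0 < M := by positivity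
  obtain ⟨E, hE⟩ : ∃ E, E = ((t : ℝ) + 1) ^ (1 + 1 / (D : ℝ)) := ⟨_, rfl⟩
  have hE' : E = ((t : ℝ) + 1) * ((t : ℝ) + 1) ^ (1 / (D : ℝ)) := by
    rw [hE, Real.rpow_add (by positivity), Real.rpow_one]
  have hA : (0 : ℝ) < E := by rw [hE]; positivity
  have hMle : (M : ℝ) ≤ 128 * (D + 3) ^ 2 * E := by
    have h1 : (M : ℝ) = ((D : ℝ) + 3) ^ 2 * (N * (2 * ((t : ℝ) + 2))) := by
      rw [hM]
      push_cast
      ring
    rw [h1, hE']
    have h2 : (N : ℝ) * (2 * ((t : ℝ) + 2)) ≤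
        (32 * ((t : ℝ) + 1) ^ (1 / (D : ℝ))) * (4 * ((t : ℝ) + 1)) := by
      apply mul_le_mul hNle (by linarith) (by positivity) (by positivity)
    calc ((D : ℝ) + 3) ^ 2 * (N * (2 * ((t : ℝ) + 2))) ≤
          ((D : ℝ) + 3) ^ 2 * ((32 * ((t : ℝ) + 1) ^ (1 / (D : ℝ))) * (4 * ((t : ℝ) + 1))) := by
          gcongr
      _ = _ := by ring
  rw [← hE]
  set y : ℝ := (m : ℝ) / E with hy
  have hy0 : 0 ≤ y := by positivity
  have hMR : (0 : ℝ) < M := by exact_mod_cast hMpos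
  have hyM : y ≤ 128 * (D + 3) ^ 2 * ((m : ℝ) / M) := by
    rw [hy, div_le_iff₀ hA]
    have : (128 * ((D : ℝ) + 3) ^ 2 * ((m : ℝ) / M)) * E =
        (m : ℝ) / M * (128 * (D + 3) ^ 2 * E) := by ring
    rw [this]
    calc (m : ℝ) = (m : ℝ) / M * M := by field_simp
      _ ≤ _ := by gcongr
  have key : y ^ (D + 1) ≤ (256 * (D + 3) ^ 2) ^ (D + 1) * (8 * (4 * D) ^ D) * R := by
    by_cases hL : M ≤ m
    · set L := m / M with hLdef
      have hL1 : 1 ≤ L := Nat.div_pos hL hMpos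
      have hcore := core3 F m D t φ ψ x hD ht hx R hR L N hL1 hN (by
        have : (D + 3) ^ 2 * (N * (2 * ((t + 2) * L))) = L * M := by
          rw [hM]; ring
        rw [this]
        exact Nat.div_mul_le_self m M)
      have hLM : (m : ℝ) / M ≤ 2 * L := by
        rw [div_le_iff₀ hMR]
        have h1 : m < (L + 1) * M := by
          have h2 := Nat.div_add_mod m M
          have h3 := Nat.mod_lt m hMpos
          rw [hLdef]
          calc m = M * (m / M) + m % M := h2.symm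
            _ < M * (m / M) + M := by omega
            _ = _ := by ring
        have h2 : (m : ℝ) < ((L : ℝ) + 1) * M := by exact_mod_cast h1
        have h3 : (1 : ℝ) ≤ L := by exact_mod_cast hL1
        nlinarith
      have hyL : y ≤ (256 * (D + 3) ^ 2) * L := by
        calc y ≤ 128 * (D + 3) ^ 2 * ((m : ℝ) / M) := hyM
          _ ≤ 128 * (D + 3) ^ 2 * (2 * L) := by gcongr
          _ = _ := by ring
      calc y ^ (D + 1) ≤ ((256 * (D + 3) ^ 2) * (L : ℝ)) ^ (D + 1) :=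
            pow_le_pow_left₀ hy0 hyL _
        _ = (256 * (D + 3) ^ 2) ^ (D + 1) * (L : ℝ) ^ (D + 1) := by rw [mul_pow]
        _ ≤ (256 * (D + 3) ^ 2) ^ (D + 1) * (8 * (4 * D) ^ D * R) := by gcongr
        _ = _ := by ring
    · have h1 : (m : ℝ) / M ≤ 1 := by
        rw [div_le_one hMR]
        exact_mod_cast (not_le.mp hL).le
      have hyL : y ≤ 128 * (D + 3) ^ 2 := by
        calc y ≤ 128 * (D + 3) ^ 2 * ((m : ℝ) / M) := hyM
          _ ≤ 128 * (D + 3) ^ 2 * 1 := by gcongr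
          _ = _ := by ring
      have hb : (1 : ℝ) ≤ (4 * D) ^ D := one_le_pow₀ (by linarith)
      calc y ^ (D + 1) ≤ (128 * (D + 3) ^ 2) ^ (D + 1) := pow_le_pow_left₀ hy0 hyL _
        _ ≤ (256 * (D + 3) ^ 2) ^ (D + 1) := by gcongr; norm_num
        _ = (256 * (D + 3) ^ 2) ^ (D + 1) * 1 := by ring
        _ ≤ (256 * (D + 3) ^ 2) ^ (D + 1) * (8 * (4 * D) ^ D * R) := by
            gcongr
            nlinarith
        _ = _ := by ring
  unfold c3
  rw [div_mul_eq_mul_div, div_le_iff₀ (by positivity)]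
  calc 1 * y ^ (D + 1) ≤ (256 * (D + 3) ^ 2) ^ (D + 1) * (8 * (4 * D) ^ D) * R := by
        rw [one_mul]; exact key
    _ = _ := by ring

/-- **Main estimate**, with a constant that depends only on the dimension. -/
theorem main3 (D : ℕ) (hD : 1 ≤ D) : ∃ c : ℝ, 0 < c ∧
    ∀ (F : Type) [Field F] [Fintype F] (m : ℕ) (φ : Rows F m D) (ψ : Digs F D)
      (x : (Fin m → F) → Fin (D + 2) → ℝ), IsDig φ ψ x → ∀ R : ℝ, Bd x R →
      (∀ t : ℕ, IsNet t φ →
        c * ((m : ℝ) / ((t : ℝ) + 1) ^ (1 + 1 / (D : ℝ))) ^ (D + 1) ≤ R) ∧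
      c * ((m : ℝ) / (1 + Real.log m / Real.log (Fintype.card F)) ^ (1 + 1 / (D : ℝ))) ^ (D + 1)
        ≤ R ∧
      1 / 2 ≤ R := by
  have hc := c3_pos D hD
  have hD' : (1 : ℝ) ≤ D := by exact_mod_cast hD
  have hinv : (0 : ℝ) ≤ 1 / (D : ℝ) := by positivity
  have hinv1 : 1 / (D : ℝ) ≤ 1 := by
    rw [div_le_one (by linarith)]
    exact hD'
  obtain ⟨a, ha⟩ : ∃ a : ℝ, a = 1 + 1 / (D : ℝ) := ⟨_, rfl⟩
  have ha0 : 0 ≤ a := by rw [ha]; positivity
  have ha2 : a ≤ 2 := by rw [ha]; linarith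
  rw [← ha]
  set e : ℝ := 1 / (4 * ((D : ℝ) + 1) ^ 2) ^ (D + 1) with he
  have hepos : 0 < e := by positivity
  have he1 : e ≤ 1 := by
    rw [he, div_le_one (by positivity)]
    apply one_le_pow₀
    nlinarith
  have hcc1 : c3 D ≤ 1 := by
    unfold c3
    rw [div_le_one (by positivity)]
    have h1 : (1 : ℝ) ≤ (256 * (D + 3) ^ 2) ^ (D + 1) := one_le_pow₀ (by nlinarith)
    have h2 : (1 : ℝ) ≤ (4 * D) ^ D := one_le_pow₀ (by nlinarith)
    nlinarith
  refine ⟨c3 D * e, by positivity, ?_⟩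
  intro F _ _ m φ ψ x hx R hR
  have hR2 : 1 / 2 ≤ R := (t_thm F m D φ ψ x hx R hR).1
  have hnet := (t_thm F m D φ ψ x hx R hR).2
  have hq2 : 2 ≤ Fintype.card F := Fintype.one_lt_card
  have hqR : (2 : ℝ) ≤ (Fintype.card F : ℝ) := by exact_mod_cast hq2
  have hlq : 0 < Real.log (Fintype.card F : ℝ) := Real.log_pos (by linarith)
  refine ⟨?_, ?_, hR2⟩
  · intro t ht
    have h1 := part3 D hD F m φ ψ x hx R hR t ht
    rw [← ha] at h1
    refine le_trans ?_ h1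
    have : (0 : ℝ) ≤ ((m : ℝ) / ((t : ℝ) + 1) ^ a) ^ (D + 1) := by
      positivity
    calc c3 D * e * ((m : ℝ) / ((t : ℝ) + 1) ^ a) ^ (D + 1)
        ≤ c3 D * 1 * ((m : ℝ) / ((t : ℝ) + 1) ^ a) ^ (D + 1) := by
          gcongr
      _ = _ := by ring
  · rcases Nat.eq_zero_or_pos m with hm | hm
    · subst hm
      simp only [Nat.cast_zero, zero_div]
      rw [zero_pow (by omega), mul_zero]
      linarith
    have hm1 : (1 : ℝ) ≤ m := by exact_mod_cast hm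
    have hlog : 0 ≤ Real.log m := Real.log_nonneg hm1
    obtain ⟨g, hg⟩ : ∃ g : ℝ, g = Real.log m / Real.log (Fintype.card F : ℝ) := ⟨_, rfl⟩
    have hg0 : 0 ≤ g := by rw [hg]; positivity
    have hgq : g * Real.log (Fintype.card F : ℝ) = Real.log m := by
      rw [hg]; field_simp
    rw [← hg]
    have hga : (0 : ℝ) < (1 + g) ^ a := by positivity
    by_cases hbig : (m : ℝ) ^ (D + 1) ≤ R
    · refine le_trans ?_ hbig
      have h1 : (m : ℝ) / ((1 + g) ^ a) ≤ m := by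
        apply div_le_self (by linarith)
        exact Real.one_le_rpow (by linarith) ha0
      calc c3 D * e * ((m : ℝ) / (1 + g) ^ a) ^ (D + 1)
          ≤ 1 * 1 * (m : ℝ) ^ (D + 1) := by gcongr
        _ = _ := by ring
    · rw [not_le] at hbig
      set t : ℕ := ⌊((D : ℝ) + 1) * g⌋₊ + 1 with htdef
      have ht1 : ((D : ℝ) + 1) * g < t := by
        rw [htdef]; push_cast; exact Nat.lt_floor_add_one _
      have ht2 : (t : ℝ) ≤ ((D : ℝ) + 1) * g + 1 := by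
        rw [htdef]; push_cast
        have := Nat.floor_le (show 0 ≤ ((D : ℝ) + 1) * g by positivity)
        linarith
      have hRt : R < (Fintype.card F : ℝ) ^ t := by
        refine lt_of_lt_of_le hbig ?_
        rw [← Real.log_le_log_iff (by positivity) (by positivity), Real.log_pow, Real.log_pow,
          ← hgq]
        push_cast
        have h3 : ((D : ℝ) + 1) * (g * Real.log (Fintype.card F : ℝ)) =
          (((D : ℝ) + 1) * g) * Real.log (Fintype.card F : ℝ) := by ring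
        rw [h3]
        gcongr
      have h1 := part3 D hD F m φ ψ x hx R hR t (hnet t hRt)
      rw [← ha] at h1
      refine le_trans ?_ h1
      have ht3 : (t : ℝ) + 1 ≤ 2 * ((D : ℝ) + 1) * (1 + g) := by nlinarith
      have ht0 : (0 : ℝ) ≤ t := Nat.cast_nonneg t
      have h4 : (((t : ℝ) + 1) ^ a) ≤ (4 * ((D : ℝ) + 1) ^ 2) * ((1 + g) ^ a) := by
        have h5 : (2 * ((D : ℝ) + 1)) ^ a ≤ 4 * ((D : ℝ) + 1) ^ 2 := by
          calc (2 * ((D : ℝ) + 1)) ^ a ≤ (2 * ((D : ℝ) + 1)) ^ (2 : ℝ) :=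
                Real.rpow_le_rpow_of_exponent_le (by linarith) ha2
            _ = _ := by
                rw [show (2 : ℝ) = ((2 : ℕ) : ℝ) by norm_num, Real.rpow_natCast]
                push_cast
                ring
        calc (((t : ℝ) + 1) ^ a)
            ≤ (2 * ((D : ℝ) + 1) * (1 + g)) ^ a := Real.rpow_le_rpow (by positivity) ht3 ha0
          _ = (2 * ((D : ℝ) + 1)) ^ a * (1 + g) ^ a := Real.mul_rpow (by positivity) (by positivity)
          _ ≤ _ := mul_le_mul_of_nonneg_right h5 hga.le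
      have h5 : (m : ℝ) / ((1 + g) ^ a) ≤
          (4 * ((D : ℝ) + 1) ^ 2) * ((m : ℝ) / (((t : ℝ) + 1) ^ a)) := by
        rw [← mul_div_assoc, div_le_div_iff₀ (by positivity) (by positivity)]
        calc (m : ℝ) * (((t : ℝ) + 1) ^ a)
            ≤ m * ((4 * ((D : ℝ) + 1) ^ 2) * ((1 + g) ^ a)) := by
              gcongr
          _ = _ := by ring
      calc c3 D * e * ((m : ℝ) / ((1 + g) ^ a)) ^ (D + 1)
          ≤ c3 D * e * ((4 * ((D : ℝ) + 1) ^ 2) *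
            ((m : ℝ) / (((t : ℝ) + 1) ^ a))) ^ (D + 1) := by gcongr
        _ = c3 D * ((m : ℝ) / (((t : ℝ) + 1) ^ a)) ^ (D + 1) := by
            rw [mul_pow, he]
            field_simp

end Pool.Agent.H555.DN
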