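import Mathlib
import Pool.Agent.H555.DN.Main

set_option autoImplicit false

/-!
# The lower bounds for digital sequences
-/

namespace Pool.Agent.H555.DN

open Finset MeasureTheory Filter
open Pool.Agent.Q71.DN

/-- The part on sequences. -/
theorem seqs2 (D : ℕ) (hD : 1 ≤ D) :
    ∃ c : ℝ, 0 < c ∧ ∀ (F : Type) [Field F] [Fintype F] (C : Fin (D + 1) → ℕ → ℕ → F) (l₀ : ℕ)
      (η : ℕ → ℕ → F) (ψ : Fin (D + 1) → ℕ → (F ≃ Fin (Fintype.card F)))
      (x : ℕ → Fin (D + 1) → ℝ), IsDigitalSeq C l₀ η ψ x → ∀ m : ℕ,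
      (∀ t : ℕ, IsTSeq (Fintype.card F) t x → ∃ N : ℕ, 1 ≤ N ∧ N ≤ Fintype.card F ^ m ∧
        ENNReal.ofReal (c * ((m : ℝ) / ((t : ℝ) + 1) ^ 2) ^ (D + 1) / N) ≤
          starDisc (fun μ : Fin N => x μ)) ∧
      ∃ N : ℕ, 1 ≤ N ∧ N ≤ Fintype.card F ^ m ∧
        ENNReal.ofReal (c * ((m : ℝ) /
          (1 + Real.log m / Real.log (Fintype.card F)) ^ 2) ^ (D + 1) / N)
          ≤ starDisc (fun μ : Fin N => x μ) := by
  obtain ⟨c, hc, hmain⟩ := main2 D hD
  refine ⟨c / 2 ^ (D + 4), by positivity, ?_⟩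
  intro F _ _ C l₀ η ψ x hx m
  have hdig := isDig_of_digits _ _ _ (seq_digits C l₀ η ψ x hx m)
  have gen : ∀ A : ℝ, (∀ R : ℝ, Bd (seqPts x η hx.1 m : (Fin m → F) → Fin (D + 2) → ℝ) R →
      c * A ≤ R) → 0 ≤ A →
      ∃ N : ℕ, 1 ≤ N ∧ N ≤ Fintype.card F ^ m ∧
        ENNReal.ofReal (c / 2 ^ (D + 4) * A / N) ≤ starDisc (fun μ : Fin N => x μ) := by
    intro A hA hA0
    by_contra hcon
    have h1 : ∀ N : ℕ, 1 ≤ N → N ≤ Fintype.card F ^ m →
        starDisc (fun μ : Fin N => x μ) ≤ ENNReal.ofReal ((c / 2 ^ (D + 4) * A) / N) := by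
      intro N h1 h2
      by_contra h3
      exact hcon ⟨N, h1, h2, (not_le.mp h3).le⟩
    obtain ⟨h2, h3⟩ := seq_bd star_thm C l₀ η ψ x hx m (c / 2 ^ (D + 4) * A) (by positivity) h1
    have h4 := hA _ h3
    have e1 : (2 : ℝ) ^ (D + 2) * (c / 2 ^ (D + 4) * A) = c * A / 4 := by
      rw [show D + 4 = (D + 2) + 2 from rfl, pow_add (2 : ℝ) (D + 2) 2]
      field_simp
      ring
    have e2 : (2 : ℝ) ^ (D + 1) * (c / 2 ^ (D + 4) * A) = c * A / 8 := by
      rw [show D + 4 = (D + 1) + 3 from rfl, pow_add (2 : ℝ) (D + 1) 3]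
      field_simp
      ring
    rw [e1] at h4
    rw [e2] at h2
    linarith
  constructor
  · intro t ht
    exact gen _ (fun R hR => (hmain F m _ _ _ hdig R hR).1 t
      (seq_net kk_thm C l₀ η ψ x hx m t ht)) (by positivity)
  · exact gen _ (fun R hR => (hmain F m _ _ _ hdig R hR).2.1) (by
      have : (0 : ℝ) ≤ (1 + Real.log m / Real.log (Fintype.card F)) ^ 2 := sq_nonneg _
      positivity)

/-- `B` is an axis-parallel box contained in `[0,1)^d`: a product of subintervals of `[0,1)` of any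
kind (open, closed, half-open; `Set.OrdConnected` subsets of `ℝ` are exactly the intervals). -/
def IsBox {d : ℕ} (B : Set (Fin d → ℝ)) : Prop :=
  ∃ I : Fin d → Set ℝ, (∀ i, (I i).OrdConnected ∧ I i ⊆ Set.Ico 0 1) ∧ B = Set.univ.pi I

open Classical in
/-- `A_N(B)`: the number of indices `0 ≤ n < N` with `z_n ∈ B`. -/
noncomputable def countIn {d : ℕ} (z : ℕ → Fin d → ℝ) (N : ℕ) (B : Set (Fin d → ℝ)) : ℕ :=
  ((Finset.range N).filter (fun n => z n ∈ B)).card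

/-- `D_N`: the (extreme) discrepancy of the first `N` points of the sequence `z`, the supremum of
`|A_N(B) / N - λ(B)|` over all axis-parallel boxes `B` contained in `[0,1)^d`. -/
noncomputable def discrepancy {d : ℕ} (z : ℕ → Fin d → ℝ) (N : ℕ) : ENNReal :=
  ⨆ (B : Set (Fin d → ℝ)) (_ : IsBox B),
    ENNReal.ofReal |(countIn z N B : ℝ) / N - (volume B).toReal|

/-- The star discrepancy is at most the extreme discrepancy. -/
theorem star_le_disc {d : ℕ} (z : ℕ → Fin d → ℝ) (hz : ∀ n j, 0 ≤ z n j ∧ z n j < 1) (N : ℕ) :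
    starDisc (fun μ : Fin N => z μ) ≤ discrepancy z N := by
  classical
  unfold starDisc
  rw [eLpNorm_exponent_top, eLpNormEssSup]
  refine essSup_le_of_ae_le _ ?_
  filter_upwards [ae_restrict_mem measurableSet_Icc] with x hx
  set I : Fin d → Set ℝ := fun j => Set.Icc 0 (x j) ∩ Set.Ico 0 1 with hI
  have hbox : IsBox (Set.univ.pi I) :=
    ⟨I, fun i => ⟨Set.ordConnected_Icc.inter Set.ordConnected_Ico, Set.inter_subset_right⟩, rfl⟩
  have hvol : ∀ j, (volume (I j)).toReal = x j := by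
    intro j
    have hx0 : 0 ≤ x j := hx.1 j
    have hx1 : x j ≤ 1 := hx.2 j
    have h1 : volume (I j) = ENNReal.ofReal (x j) := by
      apply le_antisymm
      · refine (measure_mono Set.inter_subset_left).trans ?_
        rw [Real.volume_Icc, sub_zero]
      · have h2 : Set.Ico 0 (x j) ⊆ I j := fun y hy =>
          ⟨⟨hy.1, hy.2.le⟩, ⟨hy.1, hy.2.trans_le hx1⟩⟩
        refine le_trans ?_ (measure_mono h2)
        rw [Real.volume_Ico, sub_zero]
    rw [h1, ENNReal.toReal_ofReal hx0]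
  have hvolB : (volume (Set.univ.pi I)).toReal = ∏ j, x j := by
    rw [volume_pi_pi, ENNReal.toReal_prod]
    exact Finset.prod_congr rfl fun j _ => hvol j
  have hcount : ∑ μ : Fin N, (Set.Icc (0 : Fin d → ℝ) x).indicator (fun _ => (1 : ℝ)) (z μ) =
      (countIn z N (Set.univ.pi I) : ℝ) := by
    unfold countIn
    rw [Finset.card_filter]
    push_cast
    rw [Finset.sum_range]
    refine Finset.sum_congr rfl fun μ _ => ?_
    rw [Set.indicator_apply]
    have hiff : z μ ∈ Set.Icc (0 : Fin d → ℝ) x ↔ z μ ∈ Set.univ.pi I := by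
      constructor
      · intro h j _
        exact ⟨⟨h.1 j, h.2 j⟩, hz μ j⟩
      · intro h
        exact ⟨fun j => (h j (Set.mem_univ j)).1.1, fun j => (h j (Set.mem_univ j)).1.2⟩
    by_cases h : z μ ∈ Set.Icc (0 : Fin d → ℝ) x
    · rw [if_pos h, if_pos (hiff.1 h)]
    · rw [if_neg h, if_neg fun h' => h (hiff.2 h')]
  have hval : ‖localDisc (fun μ : Fin N => z μ) x‖ₑ =
      ENNReal.ofReal |(countIn z N (Set.univ.pi I) : ℝ) / N -
        (volume (Set.univ.pi I)).toReal| := by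
    rw [← ofReal_norm_eq_enorm, Real.norm_eq_abs]
    congr 1
    unfold localDisc
    rw [hcount, hvolB, abs_sub_comm]
    congr 2
    ring
  rw [hval]
  exact le_iSup₂ (f := fun (B : Set (Fin d → ℝ)) (_ : IsBox B) =>
    ENNReal.ofReal |(countIn z N B : ℝ) / N - (volume B).toReal|) (Set.univ.pi I) hbox

/-- **Digital sequences.** -/
theorem seq_lower (s : ℕ) (hs : 2 ≤ s) :
    ∃ c : ℝ, 0 < c ∧ ∀ (F : Type) [Field F] [Fintype F] (C : Fin s → ℕ → ℕ → F) (l₀ : ℕ)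
      (η : ℕ → ℕ → F) (ψ : Fin s → ℕ → (F ≃ Fin (Fintype.card F)))
      (x : ℕ → Fin s → ℝ), IsDigitalSeq C l₀ η ψ x →
      (∀ t : ℕ, IsTSeq (Fintype.card F) t x →
        (∀ m : ℕ, ∃ N : ℕ, 1 ≤ N ∧ N ≤ Fintype.card F ^ m ∧
          ENNReal.ofReal (c * ((m : ℝ) / ((t : ℝ) + 1) ^ 2) ^ s / N) ≤ discrepancy x N) ∧
        ∃ᶠ N : ℕ in atTop,
          ENNReal.ofReal (c * (Real.log N / (((t : ℝ) + 1) ^ 2 *
            Real.log (Fintype.card F))) ^ s / N) ≤ discrepancy x N) ∧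
      ∀ m : ℕ, ∃ N : ℕ, 1 ≤ N ∧ N ≤ Fintype.card F ^ m ∧
        ENNReal.ofReal (c * ((m : ℝ) /
          (1 + Real.log m / Real.log (Fintype.card F)) ^ 2) ^ s / N) ≤ discrepancy x N := by
  obtain ⟨D, rfl⟩ := Nat.exists_eq_add_of_le' hs
  obtain ⟨c, hc, h⟩ := seqs2 (D + 1) (by omega)
  refine ⟨c, hc, ?_⟩
  intro F _ _ C l₀ η ψ x hx
  have hz : ∀ n j, 0 ≤ x n j ∧ x n j < 1 := fun n j => ⟨(hx.2.2 n j).1, (hx.2.2 n j).2.1⟩
  have hsd := fun N => star_le_disc x hz N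
  refine ⟨fun t ht => ?_, fun m => ?_⟩
  · have h1 : ∀ m : ℕ, ∃ N : ℕ, 1 ≤ N ∧ N ≤ Fintype.card F ^ m ∧
        ENNReal.ofReal (c * ((m : ℝ) / ((t : ℝ) + 1) ^ 2) ^ (D + 2) / N) ≤
          starDisc (fun μ : Fin N => x μ) := fun m => (h F C l₀ η ψ x hx m).1 t ht
    refine ⟨fun m => ?_, ?_⟩
    · obtain ⟨N, h2, h3, h4⟩ := h1 m
      exact ⟨N, h2, h3, h4.trans (hsd N)⟩
    · have hq : 2 ≤ Fintype.card F := Fintype.one_lt_card
      have h2 := freq (Fintype.card F) hq (D + 2) (by omega) c (((t : ℝ) + 1) ^ 2) hc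
        (by positivity) (fun N => starDisc (fun μ : Fin N => x μ)) (fun N => starDisc_le_one _) h1
      exact h2.mono fun N h3 => h3.trans (hsd N)
  · obtain ⟨N, h2, h3, h4⟩ := (h F C l₀ η ψ x hx m).2
    exact ⟨N, h2, h3, h4.trans (hsd N)⟩

end Pool.Agent.H555.DN
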