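import Mathlib
import Pool.Agent.H555.DN.Main3
import Pool.Agent.H555.DN.Seqs

set_option autoImplicit false

/-!
# The lower bounds for digital sequences, with the exponent `1 + 1 / (s - 1)`
-/

namespace Pool.Agent.H555.DN

open Finset MeasureTheory Filter
open Pool.Agent.Q71.DN

/-- The part on sequences. -/
theorem seqs3 (D : ℕ) (hD : 1 ≤ D) :
    ∃ c : ℝ, 0 < c ∧ ∀ (F : Type) [Field F] [Fintype F] (C : Fin (D + 1) → ℕ → ℕ → F) (l₀ : ℕ)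
      (η : ℕ → ℕ → F) (ψ : Fin (D + 1) → ℕ → (F ≃ Fin (Fintype.card F)))
      (x : ℕ → Fin (D + 1) → ℝ), IsDigitalSeq C l₀ η ψ x → ∀ m : ℕ,
      (∀ t : ℕ, IsTSeq (Fintype.card F) t x → ∃ N : ℕ, 1 ≤ N ∧ N ≤ Fintype.card F ^ m ∧
        ENNReal.ofReal (c * ((m : ℝ) / ((t : ℝ) + 1) ^ (1 + 1 / (D : ℝ))) ^ (D + 1) / N) ≤
          starDisc (fun μ : Fin N => x μ)) ∧
      ∃ N : ℕ, 1 ≤ N ∧ N ≤ Fintype.card F ^ m ∧
        ENNReal.ofReal (c * ((m : ℝ) /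
          (1 + Real.log m / Real.log (Fintype.card F)) ^ (1 + 1 / (D : ℝ))) ^ (D + 1) / N)
          ≤ starDisc (fun μ : Fin N => x μ) := by
  obtain ⟨c, hc, hmain⟩ := main3 D hD
  refine ⟨c / 2 ^ (D + 4), by positivity, ?_⟩
  intro F _ _ C l₀ η ψ x hx m
  have hdig := isDig_of_digits _ _ _ (seq_digits C l₀ η ψ x hx m)
  have gen : ∀ A : ℝ, (∀ R : ℝ, Bd (seqPts x η hx.1 m : (Fin m → F) → Fin (D + 2) → ℝ) R →
      c * A ≤ R) → 0 ≤ A →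
      ∃ N : ℕ, 1 ≤ N ∧ N ≤ Fintype.card F ^ m ∧
        ENNReal.ofReal (c / 2 ^ (D + 4) * A / N) ≤ starDisc (fun μ : Fin N => x μ) := by
    intro A hA hA0
    by_contra hcon
    have h1 : ∀ N : ℕ, 1 ≤ N → N ≤ Fintype.card F ^ m →
        starDisc (fun μ : Fin N => x μ) ≤ ENNReal.ofReal ((c / 2 ^ (D + 4) * A) / N) := by
      intro N h1 h2
      by_contra h3
      exact hcon ⟨N, h1, h2, (not_le.mp h3).le⟩
    obtain ⟨h2, h3⟩ := seq_bd star_thm C l₀ η ψ x hx m (c / 2 ^ (D + 4) * A) (by positivity) h1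
    have h4 := hA _ h3
    have e1 : (2 : ℝ) ^ (D + 2) * (c / 2 ^ (D + 4) * A) = c * A / 4 := by
      rw [show D + 4 = (D + 2) + 2 from rfl, pow_add (2 : ℝ) (D + 2) 2]
      field_simp
      ring
    have e2 : (2 : ℝ) ^ (D + 1) * (c / 2 ^ (D + 4) * A) = c * A / 8 := by
      rw [show D + 4 = (D + 1) + 3 from rfl, pow_add (2 : ℝ) (D + 1) 3]
      field_simp
      ring
    rw [e1] at h4
    rw [e2] at h2
    linarith
  constructor
  · intro t ht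
    exact gen _ (fun R hR => (hmain F m _ _ _ hdig R hR).1 t
      (seq_net kk_thm C l₀ η ψ x hx m t ht)) (by positivity)
  · refine gen _ (fun R hR => (hmain F m _ _ _ hdig R hR).2.1) ?_
    have hq1 : (1 : ℝ) ≤ (Fintype.card F : ℝ) := by exact_mod_cast Fintype.card_pos
    have h0 : 0 ≤ Real.log m / Real.log (Fintype.card F) :=
      div_nonneg (Real.log_natCast_nonneg m) (Real.log_nonneg hq1)
    positivity

/-- **Digital sequences.** -/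
theorem seq_lower3 (s : ℕ) (hs : 2 ≤ s) :
    ∃ c : ℝ, 0 < c ∧ ∀ (F : Type) [Field F] [Fintype F] (C : Fin s → ℕ → ℕ → F) (l₀ : ℕ)
      (η : ℕ → ℕ → F) (ψ : Fin s → ℕ → (F ≃ Fin (Fintype.card F)))
      (x : ℕ → Fin s → ℝ), IsDigitalSeq C l₀ η ψ x →
      (∀ t : ℕ, IsTSeq (Fintype.card F) t x →
        (∀ m : ℕ, ∃ N : ℕ, 1 ≤ N ∧ N ≤ Fintype.card F ^ m ∧
          ENNReal.ofReal (c * ((m : ℝ) / ((t : ℝ) + 1) ^ (1 + 1 / ((s : ℝ) - 1))) ^ s / N) ≤ discrepancy x N) ∧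
        ∃ᶠ N : ℕ in atTop,
          ENNReal.ofReal (c * (Real.log N / (((t : ℝ) + 1) ^ (1 + 1 / ((s : ℝ) - 1)) *
            Real.log (Fintype.card F))) ^ s / N) ≤ discrepancy x N) ∧
      ∀ m : ℕ, ∃ N : ℕ, 1 ≤ N ∧ N ≤ Fintype.card F ^ m ∧
        ENNReal.ofReal (c * ((m : ℝ) /
          (1 + Real.log m / Real.log (Fintype.card F)) ^ (1 + 1 / ((s : ℝ) - 1))) ^ s / N) ≤ discrepancy x N := by
  obtain ⟨D, rfl⟩ := Nat.exists_eq_add_of_le' hs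
  have hs1 : ((D + 2 : ℕ) : ℝ) - 1 = ((D + 1 : ℕ) : ℝ) := by
    push_cast
    ring
  rw [hs1]
  obtain ⟨c, hc, h⟩ := seqs3 (D + 1) (by omega)
  refine ⟨c, hc, ?_⟩
  intro F _ _ C l₀ η ψ x hx
  have hz : ∀ n j, 0 ≤ x n j ∧ x n j < 1 := fun n j => ⟨(hx.2.2 n j).1, (hx.2.2 n j).2.1⟩
  have hsd := fun N => star_le_disc x hz N
  refine ⟨fun t ht => ?_, fun m => ?_⟩
  · have h1 : ∀ m : ℕ, ∃ N : ℕ, 1 ≤ N ∧ N ≤ Fintype.card F ^ m ∧
        ENNReal.ofReal (c * ((m : ℝ) / ((t : ℝ) + 1) ^ (1 + 1 / ((D + 1 : ℕ) : ℝ))) ^ (D + 2) / N) ≤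
          starDisc (fun μ : Fin N => x μ) := fun m => (h F C l₀ η ψ x hx m).1 t ht
    refine ⟨fun m => ?_, ?_⟩
    · obtain ⟨N, h2, h3, h4⟩ := h1 m
      exact ⟨N, h2, h3, h4.trans (hsd N)⟩
    · have hq : 2 ≤ Fintype.card F := Fintype.one_lt_card
      have h2 := freq (Fintype.card F) hq (D + 2) (by omega) c (((t : ℝ) + 1) ^ (1 + 1 / ((D + 1 : ℕ) : ℝ))) hc
        (by positivity) (fun N => starDisc (fun μ : Fin N => x μ)) (fun N => starDisc_le_one _) h1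
      exact h2.mono fun N h3 => h3.trans (hsd N)
  · obtain ⟨N, h2, h3, h4⟩ := (h F C l₀ η ψ x hx m).2
    exact ⟨N, h2, h3, h4.trans (hsd N)⟩

end Pool.Agent.H555.DN
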